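import Pool.Agent.Helper30.PML.Final

set_option autoImplicit false

/-! # Functions on the permutation matrix locus and colourings -/

namespace Pool.Agent.Helper4.PMT

open Finset MvPolynomial Function Pool.Agent.Helper30.PML

variable {n : ℕ}

lemma ap_inv (w : Equiv.Perm (Fin n)) (x : Fin n) : w (w⁻¹ x) = x := w.apply_symm_apply x

lemma inv_ap (w : Equiv.Perm (Fin n)) (x : Fin n) : w⁻¹ (w x) = x := w.symm_apply_apply x

/-- strict rearrangement inequality on the classes of a colouring -/
lemma rearr {κ : Type*} (p : Fin n → κ) (v : Fin n → ℤ)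
    (hv : ∀ i j, i < j → p i = p j → v i < v j) :
    ∀ (m : ℕ) (σ : Equiv.Perm (Fin n)), σ.support.card = m → (∀ i, p (σ i) = p i) → σ ≠ 1 →
      ∑ i : Fin n, (i : ℤ) * v (σ i) < ∑ i : Fin n, (i : ℤ) * v i := by
  intro m
  induction m using Nat.strong_induction_on with
  | _ m ih =>
    intro σ hm hσ hne
    -- the least moved point
    have hs : σ.support.Nonempty := by
      rw [Finset.nonempty_iff_ne_empty, Ne, Equiv.Perm.support_eq_empty_iff]
      exact hne
    set i := σ.support.min' hs with hi
    have hi1 : σ i ≠ i := Equiv.Perm.mem_support.1 (min'_mem _ hs)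
    have hi2 : ∀ j, j < i → σ j = j := by
      intro j hj
      by_contra hcon
      have := min'_le σ.support j (Equiv.Perm.mem_support.2 hcon)
      exact absurd hj (not_lt.2 this)
    set j := σ.symm i with hj
    have hσj : σ j = i := by rw [hj, Equiv.apply_symm_apply]
    have hji : j ≠ i := by
      intro h
      rw [h] at hσj
      exact hi1 hσj
    have hij : i < j := by
      rcases lt_trichotomy j i with h | h | h
      · exact absurd (hi2 j h) (by rw [hσj]; exact hji.symm)
      · exact absurd h hji
      · exact h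
    have hil : i < σ i := by
      rcases lt_trichotomy (σ i) i with h | h | h
      · have := hi2 (σ i) h
        exact absurd (σ.injective this) hi1
      · exact absurd h hi1
      · exact h
    set τ : Equiv.Perm (Fin n) := σ * Equiv.swap i j with hτ
    have hτi : τ i = i := by rw [hτ, Equiv.Perm.mul_apply, Equiv.swap_apply_left, hσj]
    have hτj : τ j = σ i := by rw [hτ, Equiv.Perm.mul_apply, Equiv.swap_apply_right]
    have hτo : ∀ k, k ≠ i → k ≠ j → τ k = σ k := by
      intro k h1 h2
      rw [hτ, Equiv.Perm.mul_apply, Equiv.swap_apply_of_ne_of_ne h1 h2]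
    have hsub : τ.support ⊂ σ.support := by
      rw [Finset.ssubset_iff_of_subset]
      · exact ⟨i, Equiv.Perm.mem_support.2 hi1, fun h => Equiv.Perm.mem_support.1 h hτi⟩
      · intro k hk
        rw [Equiv.Perm.mem_support] at hk ⊢
        by_cases h1 : k = i
        · rw [h1]
          exact hi1
        by_cases h2 : k = j
        · rw [h2, hσj]
          exact hji.symm
        · rwa [hτo k h1 h2] at hk
    have hp : p i = p j := by rw [← hσ j, hσj]
    have hτp : ∀ k, p (τ k) = p k := by
      intro k
      by_cases h1 : k = i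
      · rw [h1, hτi]
      by_cases h2 : k = j
      · rw [h2, hτj, hσ, hp]
      · rw [hτo k h1 h2, hσ]
    have h1 : ∑ k : Fin n, (k : ℤ) * v (σ k) < ∑ k : Fin n, (k : ℤ) * v (τ k) := by
      have h2 : ∑ k : Fin n, ((k : ℤ) * v (τ k) - (k : ℤ) * v (σ k)) =
          ((j : ℤ) - (i : ℤ)) * (v (σ i) - v i) := by
        rw [← Finset.sum_subset (subset_univ ({i, j} : Finset (Fin n)))]
        · rw [Finset.sum_pair hji.symm, hτi, hτj, hσj]
          ring
        · intro k _ hk
          simp only [mem_insert, mem_singleton, not_or] at hk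
          rw [hτo k hk.1 hk.2, sub_self]
      rw [Finset.sum_sub_distrib] at h2
      have h3 : (0 : ℤ) < (j : ℤ) - (i : ℤ) := by
        have : (i : ℕ) < (j : ℕ) := hij
        omega
      have h4 : 0 < v (σ i) - v i := by
        have := hv i (σ i) hil (hσ i).symm
        omega
      have := mul_pos h3 h4
      omega
    by_cases hτ1 : τ = 1
    · rw [hτ1] at h1
      simpa using h1
    · exact h1.trans (ih _ (by rw [← hm]; exact card_lt_card hsub) τ rfl hτp hτ1)

/-- the energy of a permutation -/
def En (w : Equiv.Perm (Fin n)) : ℕ := ∑ i : Fin n, (i : ℕ) * (w i : ℕ)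

lemma En_cast (w : Equiv.Perm (Fin n)) : (En w : ℤ) = ∑ i : Fin n, (i : ℤ) * ((w i : ℕ) : ℤ) := by
  unfold En
  push_cast
  rfl

/-- `w` increasing on the classes of `p`: all other `w'` with the same classes have lower energy -/
lemma En_lt {κ : Type*} {p q : Fin n → κ} {w w' : Equiv.Perm (Fin n)}
    (hw : ∀ i j, i < j → p i = p j → w i < w j) (hq : ∀ i, q (w i) = p i)
    (hq' : ∀ i, q (w' i) = p i) (hne : w' ≠ w) : En w' < En w := by
  have h := rearr p (fun i => ((w i : ℕ) : ℤ)) (fun i j hij hp => by
    have : (w i : ℕ) < (w j : ℕ) := hw i j hij hp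
    exact_mod_cast this) _ (w⁻¹ * w') rfl (fun i => by
      rw [← hq, Equiv.Perm.mul_apply, ap_inv, hq']) (by
      intro h
      exact hne (inv_mul_eq_one.1 h).symm)
  have h2 : ((En w' : ℤ) < (En w : ℤ)) := by
    rw [En_cast, En_cast]
    refine lt_of_eq_of_lt (sum_congr rfl fun i _ => ?_) h
    rw [Equiv.Perm.mul_apply, ap_inv]
  exact_mod_cast h2

/-- `w` decreasing on `T`: all `w'` that agree with `w` outside `T` have higher energy -/
lemma En_gt {T : Finset (Fin n)} {w w' : Equiv.Perm (Fin n)}
    (hw : ∀ i ∈ T, ∀ j ∈ T, i < j → w j < w i) (hq : ∀ i, i ∉ T → w' i = w i)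
    (hne : w' ≠ w) : En w < En w' := by
  classical
  set p : Fin n → Option (Fin n) := fun i => if i ∈ T then none else some i with hp
  have hpT : ∀ i, p i = none ↔ i ∈ T := by
    intro i
    rw [hp]
    simp only
    split_ifs with h
    · simp [h]
    · simp [h]
  have hσ : ∀ i, i ∉ T → (w⁻¹ * w') i = i := by
    intro i hi
    rw [Equiv.Perm.mul_apply, hq i hi, inv_ap]
  have h := rearr p (fun i => -((w i : ℕ) : ℤ)) (fun i j hij hpij => by
    by_cases hi : i ∈ T
    · have hj : j ∈ T := by
        rw [← hpT, ← hpij, hpT]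
        exact hi
      have : (w j : ℕ) < (w i : ℕ) := hw i hi j hj hij
      have : ((w j : ℕ) : ℤ) < ((w i : ℕ) : ℤ) := by exact_mod_cast this
      omega
    · have hj : j ∉ T := by
        rw [← hpT, ← hpij, hpT]
        exact hi
      exfalso
      rw [hp] at hpij
      simp only at hpij
      rw [if_neg hi, if_neg hj] at hpij
      exact hij.ne (Option.some.inj hpij)) _ (w⁻¹ * w') rfl (fun i => by
      by_cases hi : i ∈ T
      · rw [(hpT i).2 hi, hpT]
        by_contra hcon
        have h1 := hσ _ hcon
        have h2 := (w⁻¹ * w').injective h1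
        rw [h2] at hcon
        exact hcon hi
      · rw [hσ i hi]) (by
      intro h
      exact hne (inv_mul_eq_one.1 h).symm)
  have h2 : ((En w : ℤ) < (En w' : ℤ)) := by
    rw [En_cast, En_cast]
    simp only [mul_neg, sum_neg_distrib, neg_lt_neg_iff] at h
    refine lt_of_lt_of_eq h (sum_congr rfl fun i _ => ?_)
    rw [Equiv.Perm.mul_apply, ap_inv]
  exact_mod_cast h2

/-- a decreasing sequence of positions -/
def Dec (w : Equiv.Perm (Fin n)) (T : Finset (Fin n)) : Prop :=
  ∀ i ∈ T, ∀ j ∈ T, i < j → w j < w i

/-- Without a decreasing sequence of length `k + 1` the positions have a colouring by `k` colours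
with `w` increasing on the classes. -/
lemma exists_colouring {k : ℕ} {w : Equiv.Perm (Fin n)}
    (h : ¬ ∃ T : Finset (Fin n), T.card = k + 1 ∧ Dec w T) :
    ∃ p : Fin n → Fin k, ∀ i j, i < j → p i = p j → w i < w j := by
  classical
  set S : Fin n → Finset (Finset (Fin n)) := fun i =>
    univ.filter fun T => i ∈ T ∧ (∀ j ∈ T, j ≤ i) ∧ Dec w T with hS
  have hmem : ∀ i T, T ∈ S i ↔ (i ∈ T ∧ (∀ j ∈ T, j ≤ i) ∧ Dec w T) := by
    intro i T
    rw [hS]
    simp
  have hcard : ∀ T, Dec w T → T.card ≤ k := by
    intro T hT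
    by_contra hcon
    obtain ⟨U, hU, hUc⟩ := exists_subset_card_eq (show k + 1 ≤ T.card by omega)
    exact h ⟨U, hUc, fun i hi j hj hij => hT i (hU hi) j (hU hj) hij⟩
  set f : Fin n → ℕ := fun i => (S i).sup card with hf
  have hf1 : ∀ i, 1 ≤ f i := by
    intro i
    have : ({i} : Finset (Fin n)) ∈ S i := by
      rw [hmem]
      refine ⟨mem_singleton_self _, fun j hj => (mem_singleton.1 hj).le, fun a ha b hb hab => ?_⟩
      rw [mem_singleton.1 ha, mem_singleton.1 hb] at hab
      exact absurd hab (lt_irrefl _)
    have h2 := le_sup (f := card) this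
    rwa [card_singleton] at h2
  have hfk : ∀ i, f i ≤ k := by
    intro i
    refine Finset.sup_le fun T hT => hcard T ((hmem i T).1 hT).2.2
  have hlt : ∀ i j, i < j → w j < w i → f i < f j := by
    intro i j hij hw
    obtain ⟨T, hT, hTf⟩ := exists_mem_eq_sup (S i) (by
      by_contra hcon
      rw [not_nonempty_iff_eq_empty] at hcon
      have := hf1 i
      rw [hf] at this
      simp only [hcon, sup_empty] at this
      exact absurd this (by norm_num)) card
    rw [hmem] at hT
    have hjT : j ∉ T := fun hj => absurd hij (not_lt.2 (hT.2.1 j hj))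
    have h3 : insert j T ∈ S j := by
      rw [hmem]
      refine ⟨mem_insert_self _ _, fun a ha => ?_, fun a ha b hb hab => ?_⟩
      · rcases mem_insert.1 ha with rfl | ha
        · exact le_rfl
        · exact (hT.2.1 a ha).trans hij.le
      · rcases mem_insert.1 ha with ha1 | ha1
        · rw [ha1] at hab ⊢
          rcases mem_insert.1 hb with hb1 | hb1
          · rw [hb1] at hab
            exact absurd hab (lt_irrefl _)
          · exact absurd (hab.trans_le (hT.2.1 b hb1)) (not_lt.2 hij.le)
        · rcases mem_insert.1 hb with hb1 | hb1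
          · rw [hb1]
            rcases (hT.2.1 a ha1).eq_or_lt with hai | hlt
            · rw [hai]
              exact hw
            · exact hw.trans (hT.2.2 a ha1 i hT.1 hlt)
          · exact hT.2.2 a ha1 b hb1 hab
    have h4 := le_sup (f := card) h3
    rw [card_insert_of_notMem hjT] at h4
    change (S i).sup card < (S j).sup card
    rw [hTf]
    exact Nat.lt_of_succ_le h4
  refine ⟨fun i => ⟨f i - 1, by have := hf1 i; have := hfk i; omega⟩, fun i j hij hp => ?_⟩
  by_contra hcon
  have hne : w i ≠ w j := fun h => hij.ne (w.injective h)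
  have h5 : w j < w i := lt_of_le_of_ne (not_lt.1 hcon) hne.symm
  have h6 := hlt i j hij h5
  have h7 := congrArg Fin.val hp
  simp only at h7
  have := hf1 i
  have := hf1 j
  omega

end Pool.Agent.Helper4.PMT
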