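import Pool.Agent.Helper4.PMT.A

set_option autoImplicit false

/-! # Functions of low degree on the permutation matrix locus -/

namespace Pool.Agent.Helper4.PMT

open Finset MvPolynomial Function Pool.Agent.Helper30.PML

variable {n : ℕ}

/-- functions on the locus -/
abbrev Fn (n : ℕ) := Equiv.Perm (Fin n) → ℂ

/-- evaluation on the locus -/
noncomputable def ev (n : ℕ) : MvPolynomial (Cell n) ℂ →ₗ[ℂ] Fn n where
  toFun f w := eval (evalPt w) f
  map_add' f g := by
    funext w
    simp
  map_smul' c f := by
    funext w
    simp [smul_eval]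

lemma ev_apply (f : MvPolynomial (Cell n) ℂ) (w : Equiv.Perm (Fin n)) :
    ev n f w = eval (evalPt w) f := rfl

/-- the polynomials of degree less than `d` -/
noncomputable def lowSub (n d : ℕ) : Submodule ℂ (MvPolynomial (Cell n) ℂ) where
  carrier := {f | Low d f}
  zero_mem' := fun k _ => coeff_zero k
  add_mem' := fun {x y} hx hy k hk => by rw [coeff_add, hx k hk, hy k hk, add_zero]
  smul_mem' := fun c x hx k hk => by rw [coeff_smul, hx k hk, smul_zero]

/-- the functions of degree less than `d` -/
noncomputable def L (n d : ℕ) : Submodule ℂ (Fn n) := (lowSub n d).map (ev n)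

lemma mem_L {d : ℕ} {F : Fn n} : F ∈ L n d ↔ ∃ r, Low d r ∧ ev n r = F := Iff.rfl

lemma L_mono {d e : ℕ} (h : d ≤ e) : L n d ≤ L n e := by
  rintro F ⟨r, hr, rfl⟩
  exact ⟨r, fun k hk => hr k (h.trans hk), rfl⟩

lemma L_zero : L n 0 = ⊥ := by
  rw [eq_bot_iff]
  rintro F ⟨r, hr, rfl⟩
  have : r = 0 := by
    ext k
    rw [hr k (Nat.zero_le _), coeff_zero]
  rw [this, map_zero]
  exact zero_mem _

lemma homog_L {a d : ℕ} {f : MvPolynomial (Cell n) ℂ} (hf : f.IsHomogeneous a) (h : a < d) :
    ev n f ∈ L n d := by
  refine ⟨f, fun k hk => ?_, rfl⟩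
  by_contra hcon
  have h1 := hf hcon
  have h2 : Finsupp.weight (1 : Cell n → ℕ) k = k.degree := by
    rw [Finsupp.degree_eq_weight_one]
    rfl
  rw [← h2, h1] at hk
  omega

/-- the cells of `w` in the rows outside `T` -/
def outside (w : Equiv.Perm (Fin n)) (T : Finset (Fin n)) : Finset (Cell n) :=
  Tᶜ.image fun i => (i, w i)

lemma card_outside (w : Equiv.Perm (Fin n)) (T : Finset (Fin n)) :
    (outside w T).card = n - T.card := by
  unfold outside
  rw [card_image_of_injective _ (fun i j h => (Prod.ext_iff.1 h).1), card_compl, Fintype.card_fin]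

/-- the indicator of the permutations that agree with `w` outside `T` -/
noncomputable def Ind (w : Equiv.Perm (Fin n)) (T : Finset (Fin n)) : Fn n :=
  fun w' => if ∀ i, i ∉ T → w' i = w i then 1 else 0

lemma Ind_eq (w : Equiv.Perm (Fin n)) (T : Finset (Fin n)) : Ind w T = ev n (mon (outside w T)) := by
  funext w'
  rw [ev_apply]
  unfold mon Ind
  rw [map_prod]
  simp only [eval_X, evalPt]
  split_ifs with h
  · symm
    refine prod_eq_one fun x hx => ?_
    unfold outside at hx
    rw [mem_image] at hx
    obtain ⟨i, hi, rfl⟩ := hx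
    rw [mem_compl] at hi
    simp only
    rw [if_pos (h i hi)]
  · symm
    push Not at h
    obtain ⟨i, hi, hi'⟩ := h
    refine prod_eq_zero (i := (i, w i)) ?_ (if_neg hi')
    unfold outside
    rw [mem_image]
    exact ⟨i, mem_compl.2 hi, rfl⟩

lemma Ind_L {d : ℕ} (w : Equiv.Perm (Fin n)) {T : Finset (Fin n)} (h : n < d + T.card) :
    Ind w T ∈ L n d := by
  rw [Ind_eq]
  refine homog_L (mon_homog _) ?_
  rw [card_outside]
  have : T.card ≤ n := by
    have := T.card_le_univ
    rwa [Fintype.card_fin] at this
  omega

/-- the alternating sum of a function over the permutations that respect two colourings -/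
noncomputable def Th {κ : Type*} [DecidableEq κ] (p q : Fin n → κ) : Fn n →ₗ[ℂ] ℂ where
  toFun F := ∑ w : Equiv.Perm (Fin n), ((Equiv.Perm.sign w : ℤ) : ℂ) *
    (if ∀ i, q (w i) = p i then F w else 0)
  map_add' F G := by
    rw [← sum_add_distrib]
    refine sum_congr rfl fun w _ => ?_
    split_ifs
    · rw [Pi.add_apply, mul_add]
    · ring
  map_smul' c F := by
    rw [RingHom.id_apply, smul_eq_mul, mul_sum]
    refine sum_congr rfl fun w _ => ?_
    split_ifs
    · rw [Pi.smul_apply, smul_eq_mul]
      ring
    · ring

lemma Th_apply {κ : Type*} [DecidableEq κ] (p q : Fin n → κ) (F : Fn n) :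
    Th p q F = ∑ w : Equiv.Perm (Fin n), ((Equiv.Perm.sign w : ℤ) : ℂ) *
      (if ∀ i, q (w i) = p i then F w else 0) := rfl

lemma sign_mul_swap (w : Equiv.Perm (Fin n)) {i j : Fin n} (h : i ≠ j) :
    ((Equiv.Perm.sign (w * Equiv.swap i j) : ℤ) : ℂ) = -((Equiv.Perm.sign w : ℤ) : ℂ) := by
  rw [Equiv.Perm.sign_mul, Equiv.Perm.sign_swap h]
  push_cast
  ring

/-- functions of degree less than `n - k` are orthogonal to the `k`-colourings -/
theorem orth {κ : Type*} [DecidableEq κ] [Fintype κ] {d : ℕ} (h : d + Fintype.card κ ≤ n)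
    {F : Fn n} (hF : F ∈ L n d) (p q : Fin n → κ) : Th p q F = 0 := by
  obtain ⟨r, hr, rfl⟩ := hF
  rw [r.as_sum, map_sum, map_sum]
  refine sum_eq_zero fun m hm => ?_
  have hmd : m.degree < d := by
    by_contra hcon
    exact (MvPolynomial.mem_support_iff.1 hm) (hr m (not_lt.1 hcon))
  set R : Finset (Fin n) := m.support.image Prod.fst with hR
  have hRc : R.card < d := by
    refine lt_of_le_of_lt card_image_le (lt_of_le_of_lt ?_ hmd)
    have : m.support.card = ∑ x ∈ m.support, 1 := by simp
    rw [this]
    exact sum_le_sum fun x hx => Nat.one_le_iff_ne_zero.2 (Finsupp.mem_support_iff.1 hx)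
  have hcc : Fintype.card κ < Rᶜ.card := by
    rw [card_compl, Fintype.card_fin]
    omega
  obtain ⟨i, hi, j, hj, hij, hpij⟩ := exists_ne_map_eq_of_card_lt_of_maps_to
    (s := Rᶜ) (t := (univ : Finset κ)) (by rwa [card_univ]) (f := p) (fun _ _ => by simp)
  rw [mem_compl] at hi hj
  have key : Th p q (ev n (monomial m (coeff m r))) = -Th p q (ev n (monomial m (coeff m r))) := by
    conv_lhs => rw [Th_apply]
    rw [Th_apply, ← sum_neg_distrib]
    refine Fintype.sum_equiv (Equiv.mulRight (Equiv.swap i j)) _ _ fun w => ?_
    rw [Equiv.coe_mulRight, sign_mul_swap w hij, neg_mul, neg_neg]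
    congr 1
    have h1 : (∀ l, q ((w * Equiv.swap i j) l) = p l) ↔ ∀ l, q (w l) = p l := by
      have hps : ∀ l, p (Equiv.swap i j l) = p l := by
        intro l
        rcases eq_or_ne l i with rfl | h1
        · rw [Equiv.swap_apply_left, hpij]
        rcases eq_or_ne l j with rfl | h2
        · rw [Equiv.swap_apply_right, hpij]
        · rw [Equiv.swap_apply_of_ne_of_ne h1 h2]
      constructor
      · intro hl l
        have := hl (Equiv.swap i j l)
        rwa [Equiv.Perm.mul_apply, Equiv.swap_apply_self, hps] at this
      · intro hl l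
        rw [Equiv.Perm.mul_apply, hl, hps]
    have h2 : ev n (monomial m (coeff m r)) (w * Equiv.swap i j) =
        ev n (monomial m (coeff m r)) w := by
      rw [ev_apply, ev_apply, eval_monomial, eval_monomial]
      congr 1
      refine Finset.prod_congr rfl fun x hx => ?_
      have hxR : x.1 ∈ R := mem_image_of_mem _ hx
      have h3 : (w * Equiv.swap i j) x.1 = w x.1 := by
        rw [Equiv.Perm.mul_apply, Equiv.swap_apply_of_ne_of_ne]
        · rintro rfl
          exact hi hxR
        · rintro rfl
          exact hj hxR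
      simp only [evalPt, h3]
    rw [h2]
    exact (if_congr h1 rfl rfl).symm
  have h4 : (2 : ℂ) * Th p q (ev n (monomial m (coeff m r))) = 0 := by
    linear_combination key
  exact (mul_eq_zero.1 h4).resolve_left two_ne_zero

/-- a function orthogonal to all `k`-colourings has degree less than `n - k` -/
theorem hard {d k : ℕ} (h : d + k = n) {F : Fn n}
    (hF : ∀ p q : Fin n → Fin k, Th p q F = 0) : F ∈ L n d := by
  classical
  have step : ∀ t : ℕ, ∃ G : Fn n, F - G ∈ L n d ∧ ∀ w, En w < t → G w = 0 := by
    intro t
    induction t with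
    | zero => exact ⟨F, by rw [sub_self]; exact zero_mem _, fun w hw => absurd hw (Nat.not_lt_zero _)⟩
    | succ t ih =>
      obtain ⟨G, hG, hG0⟩ := ih
      have hGo : ∀ p q : Fin n → Fin k, Th p q G = 0 := by
        intro p q
        have h1 := orth (κ := Fin k) (by rw [Fintype.card_fin]; exact h.le) hG p q
        rw [map_sub, hF, zero_sub, neg_eq_zero] at h1
        exact h1
      set B : Finset (Equiv.Perm (Fin n)) := univ.filter fun w => En w = t ∧
        ∃ T : Finset (Fin n), T.card = k + 1 ∧ Dec w T with hB
      have hBT : ∀ w : Equiv.Perm (Fin n), ∃ T : Finset (Fin n), w ∈ B →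
          T.card = k + 1 ∧ Dec w T := by
        intro w
        by_cases hw : w ∈ B
        · rw [hB, mem_filter] at hw
          obtain ⟨T, hT⟩ := hw.2.2
          exact ⟨T, fun _ => hT⟩
        · exact ⟨∅, fun h => absurd h hw⟩
      choose T hT using hBT
      refine ⟨G - ∑ w ∈ B, G w • Ind w (T w), ?_, ?_⟩
      · rw [sub_sub_eq_add_sub, add_sub_right_comm]
        refine add_mem hG (sum_mem fun w hw => Submodule.smul_mem _ _ (Ind_L w ?_))
        rw [(hT w hw).1]
        omega
      · intro w' hw'
        have hsum : (∑ w ∈ B, G w • Ind w (T w)) w' = if w' ∈ B then G w' else 0 := by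
          rw [Finset.sum_apply, ← sum_ite_eq' B w' (fun w => G w)]
          refine sum_congr rfl fun w hw => ?_
          rw [Pi.smul_apply, smul_eq_mul]
          unfold Ind
          by_cases hww : w = w'
          · rw [hww, if_pos rfl, if_pos (fun _ _ => rfl), mul_one]
          · rw [if_neg hww]
            rw [if_neg, mul_zero]
            intro hag
            have h2 := En_gt (hT w hw).2 hag (Ne.symm hww)
            rw [hB, mem_filter] at hw
            omega
        rw [Pi.sub_apply, hsum]
        by_cases hB' : w' ∈ B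
        · rw [if_pos hB', sub_self]
        · rw [if_neg hB', sub_zero]
          by_cases hlt : En w' < t
          · exact hG0 w' hlt
          have hEt : En w' = t := by omega
          have hno : ¬ ∃ T : Finset (Fin n), T.card = k + 1 ∧ Dec w' T := by
            intro hcon
            exact hB' (by rw [hB, mem_filter]; exact ⟨mem_univ _, hEt, hcon⟩)
          obtain ⟨p, hp⟩ := exists_colouring hno
          have h3 := hGo p (fun j => p (w'.symm j))
          rw [Th_apply, sum_eq_single w'] at h3
          · rw [if_pos (fun i => by rw [Equiv.symm_apply_apply])] at h3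
            rcases mul_eq_zero.1 h3 with h4 | h4
            · exfalso
              have h5 : ((Equiv.Perm.sign w' : ℤ)) = 0 := by exact_mod_cast h4
              exact (Equiv.Perm.sign w').ne_zero h5
            · exact h4
          · intro w _ hne
            split_ifs with hc
            · rw [hG0 w, mul_zero]
              have := En_lt (q := fun j => p (w'.symm j)) hp
                (fun i => by simp only [Equiv.symm_apply_apply]) hc hne
              omega
            · rw [mul_zero]
          · intro hcon
            exact absurd (mem_univ _) hcon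
  obtain ⟨G, hG, hG0⟩ := step (univ.sup (fun w : Equiv.Perm (Fin n) => En w) + 1)
  have hG1 : G = 0 := by
    funext w
    refine hG0 w (Nat.lt_succ_of_le ?_)
    exact le_sup (f := fun w : Equiv.Perm (Fin n) => En w) (mem_univ w)
  rwa [hG1, sub_zero] at hG

end Pool.Agent.Helper4.PMT
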