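import Pool.Agent.Helper4.PMT.B

set_option autoImplicit false

/-! # The graded pieces as quotients of spaces of functions -/

namespace Pool.Agent.Helper4.PMT

open Finset MvPolynomial Function TensorProduct Pool.Agent.Helper30.PML

variable {n : ℕ}

/-- the action on functions -/
noncomputable def gF (g : Gp n) : Fn n →ₗ[ℂ] Fn n where
  toFun F w := F (g.2⁻¹ * w * g.1)
  map_add' _ _ := rfl
  map_smul' _ _ := rfl

lemma gF_apply (g : Gp n) (F : Fn n) (w : Equiv.Perm (Fin n)) :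
    gF g F w = F (g.2⁻¹ * w * g.1) := rfl

lemma gF_mul (g h : Gp n) : gF (g * h) = gF g ∘ₗ gF h := by
  refine LinearMap.ext fun F => ?_
  funext w
  rw [LinearMap.comp_apply, gF_apply, gF_apply, gF_apply, Prod.snd_mul, Prod.fst_mul,
    mul_inv_rev]
  simp only [mul_assoc]

lemma ev_rename (g : Gp n) (f : MvPolynomial (Cell n) ℂ) :
    ev n (rename (Prod.map ⇑g.1 ⇑g.2) f) = gF g (ev n f) := by
  funext w
  rw [gF_apply, ev_apply, ev_apply, eval_rename]
  have h1 : evalPt w ∘ Prod.map ⇑g.1 ⇑g.2 = evalPt (g.2⁻¹ * w * g.1) := by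
    funext p
    unfold evalPt
    simp only [Function.comp_apply, Prod.map_fst, Prod.map_snd, Equiv.Perm.mul_apply]
    congr 1
    rw [Equiv.Perm.inv_eq_iff_eq]
  rw [h1]

lemma gF_L {d : ℕ} (g : Gp n) {F : Fn n} (hF : F ∈ L n d) : gF g F ∈ L n d := by
  obtain ⟨r, hr, rfl⟩ := hF
  rw [← ev_rename, r.as_sum, map_sum, map_sum]
  refine sum_mem fun m hm => homog_L (a := m.degree) ?_ ?_
  · have : (monomial m (coeff m r)).IsHomogeneous m.degree := isHomogeneous_monomial _ rfl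
    exact this.rename_isHomogeneous
  · by_contra hcon
    exact (MvPolynomial.mem_support_iff.1 hm) (hr m (not_lt.1 hcon))

/-- functions modulo functions of degree less than `d` -/
abbrev Q (n d : ℕ) := Fn n ⧸ L n d

/-- the action on the quotient -/
noncomputable def gQ (d : ℕ) (g : Gp n) : Q n d →ₗ[ℂ] Q n d :=
  (L n d).mapQ (L n d) (gF g) fun _ hF => gF_L g hF

lemma gQ_mk (d : ℕ) (g : Gp n) (F : Fn n) :
    gQ d g ((L n d).mkQ F) = (L n d).mkQ (gF g F) := rfl

/-- the graded piece as a subspace of the quotient -/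
noncomputable def tau (n d : ℕ) : M n d →ₗ[ℂ] Q n d :=
  (K n d).liftQ ((L n d).mkQ ∘ₗ ev n ∘ₗ (homogeneousSubmodule (Cell n) ℂ d).subtype) (by
    intro x hx
    rw [LinearMap.mem_ker, LinearMap.comp_apply, LinearMap.comp_apply, Submodule.mkQ_apply,
      Submodule.Quotient.mk_eq_zero, Submodule.subtype_apply]
    have hx' : (x : MvPolynomial (Cell n) ℂ) ∈ J n := hx
    obtain ⟨r, hr, hr'⟩ := J_low hx' d
    refine ⟨r, hr, ?_⟩
    funext w
    rw [ev_apply, ev_apply, ← hr' w, homogeneousComponent_of_mem x.2, if_pos rfl])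

lemma tau_mk {d : ℕ} (x : homogeneousSubmodule (Cell n) ℂ d) :
    tau n d (Submodule.Quotient.mk x) = (L n d).mkQ (ev n x) := rfl

lemma tau_inj (n d : ℕ) : Injective (tau n d) := by
  rw [← LinearMap.ker_eq_bot, LinearMap.ker_eq_bot']
  intro y hy
  obtain ⟨x, rfl⟩ := Submodule.Quotient.mk_surjective _ y
  rw [tau_mk, Submodule.mkQ_apply, Submodule.Quotient.mk_eq_zero] at hy
  obtain ⟨r, hr, hr'⟩ := hy
  rw [Submodule.Quotient.mk_eq_zero]
  change (x : MvPolynomial (Cell n) ℂ) ∈ J n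
  have hxh : (x : MvPolynomial (Cell n) ℂ).IsHomogeneous d := (mem_homogeneousSubmodule _ _).1 x.2
  rcases Nat.eq_zero_or_pos d with rfl | hd
  · have hr0 : r = 0 := by
      ext k
      rw [hr k (Nat.zero_le _), coeff_zero]
    rw [hr0, map_zero] at hr'
    have h1 := congrFun hr'.symm 1
    rw [ev_apply] at h1
    obtain ⟨c, hc⟩ : ∃ c, (x : MvPolynomial (Cell n) ℂ) = C c := by
      refine ⟨coeff 0 (x : MvPolynomial (Cell n) ℂ), ?_⟩
      rw [← totalDegree_eq_zero_iff_eq_C]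
      exact Nat.le_zero.1 hxh.totalDegree_le
    rw [hc] at h1 ⊢
    rw [eval_C] at h1
    have h2 : c = 0 := h1
    rw [h2, map_zero]
    exact zero_mem _
  · refine mem_J_of (r := -r) hxh ?_ fun w => ?_
    · rw [totalDegree_neg]
      rw [totalDegree, Finset.sup_lt_iff hd]
      intro k hk
      by_contra hcon
      have h3 : (k.sum fun _ e => e) = k.degree := rfl
      rw [h3] at hcon
      exact (MvPolynomial.mem_support_iff.1 hk) (hr k (not_lt.1 hcon))
    · have := congrFun hr' w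
      rw [ev_apply, ev_apply] at this
      rw [map_add, map_neg, this, add_neg_cancel]

lemma mem_range_tau {d : ℕ} {F : Fn n} (hF : F ∈ L n (d + 1)) :
    (L n d).mkQ F ∈ LinearMap.range (tau n d) := by
  obtain ⟨r, hr, rfl⟩ := hF
  refine ⟨Submodule.Quotient.mk ⟨homogeneousComponent d r, homogeneousComponent_mem d r⟩, ?_⟩
  rw [tau_mk]
  symm
  rw [← sub_eq_zero, ← map_sub, Submodule.mkQ_apply, Submodule.Quotient.mk_eq_zero, ← map_sub]
  refine ⟨_, fun k hk => ?_, rfl⟩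
  rw [coeff_sub, coeff_homogeneousComponent]
  split_ifs with h
  · rw [sub_self]
  · rw [sub_zero]
    exact hr k (by omega)

lemma tau_act {ρ : (d : ℕ) → Gp n → (M n d →ₗ[ℂ] M n d)} (hρ : IsAct ρ) (d : ℕ) (g : Gp n)
    (x : M n d) : tau n d (ρ d g x) = gQ d g (tau n d x) := by
  obtain ⟨x, rfl⟩ := Submodule.Quotient.mk_surjective _ x
  rw [hρ d g x ⟨_, rename_homog g x⟩ rfl, tau_mk, tau_mk, gQ_mk, ← ev_rename]

lemma act_act {ρ : (d : ℕ) → Gp n → (M n d →ₗ[ℂ] M n d)} (hρ : IsAct ρ) (d : ℕ) (g h : Gp n)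
    (x : M n d) : ρ d g (ρ d h x) = ρ d (g * h) x := by
  rw [hρ.mul]
  rfl

/-- equivariant lifting of the graded piece to functions -/
theorem exists_section {ρ : (d : ℕ) → Gp n → (M n d →ₗ[ℂ] M n d)} (hρ : IsAct ρ) (d : ℕ) :
    ∃ s : M n d →ₗ[ℂ] Fn n, (∀ x, s x ∈ L n (d + 1)) ∧ (∀ x, s x ∈ L n d → x = 0) ∧
      ∀ g x, s (ρ d g x) = gF g (s x) := by
  classical
  obtain ⟨t, ht⟩ := (K n d).mkQ.exists_rightInverse_of_surjective (Submodule.range_mkQ _)
  set s₀ : M n d →ₗ[ℂ] Fn n := ev n ∘ₗ (homogeneousSubmodule (Cell n) ℂ d).subtype ∘ₗ t with hs₀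
  have h1 : ∀ x, s₀ x ∈ L n (d + 1) := fun x =>
    homog_L ((mem_homogeneousSubmodule _ _).1 (t x).2) (Nat.lt_succ_self d)
  have h2 : ∀ x, (L n d).mkQ (s₀ x) = tau n d x := by
    intro x
    have h3 : (K n d).mkQ (t x) = x := LinearMap.congr_fun ht x
    conv_rhs => rw [← h3]
    rfl
  set N : ℂ := (Fintype.card (Gp n) : ℂ) with hN
  have hN0 : N ≠ 0 := by
    rw [hN]
    exact_mod_cast Fintype.card_ne_zero
  set s : M n d →ₗ[ℂ] Fn n := N⁻¹ • ∑ g : Gp n, (gF g) ∘ₗ s₀ ∘ₗ ρ d g⁻¹ with hs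
  have hsa : ∀ x, s x = N⁻¹ • ∑ g : Gp n, gF g (s₀ (ρ d g⁻¹ x)) := by
    intro x
    rw [hs, LinearMap.smul_apply, LinearMap.sum_apply]
    rfl
  refine ⟨s, ?_, ?_, ?_⟩
  · intro x
    rw [hsa]
    exact Submodule.smul_mem _ _ (sum_mem fun g _ => gF_L g (h1 _))
  · intro x hx
    have h4 : (L n d).mkQ (s x) = tau n d x := by
      rw [hsa, map_smul, map_sum]
      have h5 : ∀ g : Gp n, (L n d).mkQ (gF g (s₀ (ρ d g⁻¹ x))) = tau n d x := by
        intro g
        rw [← gQ_mk, h2, ← tau_act hρ, act_act hρ, mul_inv_cancel, hρ.one, LinearMap.id_apply]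
      rw [sum_congr rfl fun g _ => h5 g, sum_const, card_univ, ← Nat.cast_smul_eq_nsmul ℂ,
        smul_smul, ← hN, inv_mul_cancel₀ hN0, one_smul]
    apply tau_inj n d
    rw [map_zero, ← h4, Submodule.mkQ_apply, Submodule.Quotient.mk_eq_zero]
    exact hx
  · intro h x
    rw [hsa, hsa, map_smul, map_sum]
    congr 1
    rw [← Equiv.sum_comp (Equiv.mulLeft h)]
    refine sum_congr rfl fun g _ => ?_
    rw [Equiv.coe_mulLeft, gF_mul, LinearMap.comp_apply]
    congr 2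
    simp only
    rw [act_act hρ, mul_inv_rev, inv_mul_cancel_right]

end Pool.Agent.Helper4.PMT
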