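import Pool.Agent.Helper4.PMT.C

set_option autoImplicit false

/-! # The top degree -/

namespace Pool.Agent.Helper4.PMT

open Finset MvPolynomial Function TensorProduct Pool.Agent.Helper30.PML

variable {n : ℕ}

/-- the indicator of `w` -/
noncomputable def dl (w : Equiv.Perm (Fin n)) : Fn n := fun w' => if w' = w then 1 else 0

lemma sum_dl (F : Fn n) : ∑ w, F w • dl w = F := by
  classical
  funext w'
  rw [Finset.sum_apply, sum_eq_single w']
  · rw [Pi.smul_apply, dl, if_pos rfl, smul_eq_mul, mul_one]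
  · intro w _ hne
    rw [Pi.smul_apply, dl, if_neg hne.symm, smul_zero]
  · intro h
    exact absurd (mem_univ _) h

/-- the sign of a permutation as a complex number -/
noncomputable def sg (w : Equiv.Perm (Fin n)) : ℂ := ((Equiv.Perm.sign w : ℤ) : ℂ)

lemma sg_mul (u v : Equiv.Perm (Fin n)) : sg (u * v) = sg u * sg v := by
  unfold sg
  rw [Equiv.Perm.sign_mul]
  push_cast
  rfl

lemma sg_inv (u : Equiv.Perm (Fin n)) : sg u⁻¹ = sg u := by
  unfold sg
  rw [Equiv.Perm.sign_inv]

lemma sg_sq (u : Equiv.Perm (Fin n)) : sg u * sg u = 1 := by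
  unfold sg
  rcases Int.units_eq_one_or (Equiv.Perm.sign u) with h | h <;> rw [h] <;> norm_num

lemma Th_dl {κ : Type*} [DecidableEq κ] (p q : Fin n → κ) (w : Equiv.Perm (Fin n)) :
    Th p q (dl w) = if ∀ i, q (w i) = p i then sg w else 0 := by
  rw [Th_apply, sum_eq_single w]
  · by_cases h : ∀ i, q (w i) = p i
    · rw [if_pos h, if_pos h, dl, if_pos rfl, mul_one]
      rfl
    · rw [if_neg h, if_neg h, mul_zero]
  · intro w' _ hne
    rw [dl, if_neg hne, ite_self, mul_zero]
  · intro h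
    exact absurd (mem_univ _) h

lemma gF_dl (g : Gp n) (w : Equiv.Perm (Fin n)) : gF g (dl w) = dl (g.2 * w * g.1⁻¹) := by
  funext w'
  rw [gF_apply, dl, dl]
  congr 1
  apply propext
  constructor
  · intro h
    rw [← h]
    group
  · rintro rfl
    group

/-- the sum with signs -/
noncomputable def eps : Fn n →ₗ[ℂ] ℂ := Th (fun _ => ()) (fun _ => ())

lemma eps_apply (F : Fn n) : eps F = ∑ w, sg w * F w := by
  unfold eps
  rw [Th_apply]
  refine sum_congr rfl fun w _ => ?_
  rw [if_pos (fun _ => rfl)]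
  rfl

lemma eps_dl (w : Equiv.Perm (Fin n)) : eps (dl w) = sg w := by
  unfold eps
  rw [Th_dl, if_pos (fun _ => rfl)]

lemma eps_L {d : ℕ} (h : d + 1 ≤ n) {F : Fn n} (hF : F ∈ L n d) : eps F = 0 :=
  orth (κ := Unit) (by simpa using h) hF _ _

lemma L_of_eps {d : ℕ} (h : d + 1 = n) {F : Fn n} (hF : eps F = 0) : F ∈ L n d := by
  refine hard h fun p q => ?_
  have : Th p q F = eps F := by
    rw [Th_apply, eps_apply]
    refine sum_congr rfl fun w _ => ?_
    rw [if_pos (fun _ => Subsingleton.elim _ _)]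
    rfl
  rw [this, hF]

lemma eps_gF (g : Gp n) (F : Fn n) : eps (gF g F) = sg g.1 * sg g.2 * eps F := by
  rw [eps_apply, eps_apply, mul_sum]
  refine Fintype.sum_equiv ((Equiv.mulRight g.1).trans (Equiv.mulLeft g.2⁻¹)) _ _ fun w => ?_
  rw [gF_apply]
  have h1 : ((Equiv.mulRight g.1).trans (Equiv.mulLeft g.2⁻¹)) w = g.2⁻¹ * w * g.1 := by
    rw [Equiv.trans_apply, Equiv.coe_mulRight, Equiv.coe_mulLeft, mul_assoc]
  rw [h1, sg_mul, sg_mul, sg_inv]
  have h2 := sg_sq g.1
  have h3 := sg_sq g.2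
  linear_combination (-(sg w * F (g.2⁻¹ * w * g.1))) * (h2 * (sg g.2 * sg g.2) + h3)

/-- the descent of the colouring functionals to the quotient -/
noncomputable def ThQ {κ : Type*} [DecidableEq κ] [Fintype κ] (d : ℕ)
    (h : d + Fintype.card κ ≤ n) (p q : Fin n → κ) : Q n d →ₗ[ℂ] ℂ :=
  (L n d).liftQ (Th p q) fun _ hF => orth h hF p q

lemma ThQ_mk {κ : Type*} [DecidableEq κ] [Fintype κ] (d : ℕ)
    (h : d + Fintype.card κ ≤ n) (p q : Fin n → κ) (F : Fn n) :
    ThQ d h p q ((L n d).mkQ F) = Th p q F := rfl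

/-- the descent of the alternating sum to the quotient -/
noncomputable def epsQ (d : ℕ) (h : d + 1 ≤ n) : Q n d →ₗ[ℂ] ℂ :=
  (L n d).liftQ eps fun _ hF => eps_L h hF

lemma epsQ_mk (d : ℕ) (h : d + 1 ≤ n) (F : Fn n) :
    epsQ d h ((L n d).mkQ F) = eps F := rfl

/-- the twisted diagonal -/
noncomputable def Del (d : ℕ) : Fn n →ₗ[ℂ] (Q n d ⊗[ℂ] Q n d) where
  toFun F := ∑ w, (F w * sg w) • ((L n d).mkQ (dl w) ⊗ₜ[ℂ] (L n d).mkQ (dl w))
  map_add' F G := by
    rw [← sum_add_distrib]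
    refine sum_congr rfl fun w _ => ?_
    rw [Pi.add_apply, add_mul, add_smul]
  map_smul' c F := by
    rw [RingHom.id_apply, smul_sum]
    refine sum_congr rfl fun w _ => ?_
    rw [Pi.smul_apply, smul_eq_mul, smul_smul, mul_assoc]

lemma Del_apply (d : ℕ) (F : Fn n) : Del d F =
    ∑ w, (F w * sg w) • ((L n d).mkQ (dl w) ⊗ₜ[ℂ] (L n d).mkQ (dl w)) := rfl

lemma Del_gF (d : ℕ) (g : Gp n) (F : Fn n) :
    Del d (gF g F) = (sg g.1 * sg g.2) • TensorProduct.map (gQ d g) (gQ d g) (Del d F) := by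
  rw [Del_apply, Del_apply, map_sum, smul_sum]
  refine Fintype.sum_equiv ((Equiv.mulRight g.1).trans (Equiv.mulLeft g.2⁻¹)) _ _ fun w => ?_
  have h1 : ((Equiv.mulRight g.1).trans (Equiv.mulLeft g.2⁻¹)) w = g.2⁻¹ * w * g.1 := by
    rw [Equiv.trans_apply, Equiv.coe_mulRight, Equiv.coe_mulLeft, mul_assoc]
  rw [h1, gF_apply, map_smul, TensorProduct.map_tmul, gQ_mk, gF_dl]
  have h2 : g.2 * (g.2⁻¹ * w * g.1) * g.1⁻¹ = w := by group
  rw [h2, smul_smul]
  congr 1
  rw [sg_mul, sg_mul, sg_inv]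
  have h3 := sg_sq g.1
  have h4 := sg_sq g.2
  linear_combination (-(sg w * F (g.2⁻¹ * w * g.1))) * (h3 * (sg g.2 * sg g.2) + h4)

/-- contraction of the first factor -/
lemma Del_left (d : ℕ) (h : d + 1 ≤ n) {F : Fn n} (hF : F ∈ L n d) :
    TensorProduct.map (epsQ d h) LinearMap.id (Del d F) = 0 := by
  rw [Del_apply, map_sum]
  have h1 : ∀ w, TensorProduct.map (epsQ d h) LinearMap.id
      ((F w * sg w) • ((L n d).mkQ (dl w) ⊗ₜ[ℂ] (L n d).mkQ (dl w))) =
      (1 : ℂ) ⊗ₜ[ℂ] ((L n d).mkQ (F w • dl w)) := by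
    intro w
    rw [map_smul, TensorProduct.map_tmul, epsQ_mk, eps_dl, LinearMap.id_apply, map_smul]
    calc (F w * sg w) • (sg w ⊗ₜ[ℂ] (L n d).mkQ (dl w))
        = (F w * sg w) • ((sg w • (1 : ℂ)) ⊗ₜ[ℂ] (L n d).mkQ (dl w)) := by
          rw [smul_eq_mul, mul_one]
      _ = (F w * sg w * sg w) • ((1 : ℂ) ⊗ₜ[ℂ] (L n d).mkQ (dl w)) := by
          rw [← TensorProduct.smul_tmul', smul_smul]
      _ = F w • ((1 : ℂ) ⊗ₜ[ℂ] (L n d).mkQ (dl w)) := by
          rw [mul_assoc, sg_sq, mul_one]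
      _ = (1 : ℂ) ⊗ₜ[ℂ] (F w • (L n d).mkQ (dl w)) := (TensorProduct.tmul_smul _ _ _).symm
  rw [sum_congr rfl fun w _ => h1 w, ← TensorProduct.tmul_sum, ← map_sum, sum_dl]
  have h2 : (L n d).mkQ F = 0 := by
    rw [Submodule.mkQ_apply, Submodule.Quotient.mk_eq_zero]
    exact hF
  rw [h2, TensorProduct.tmul_zero]

/-- contraction of the second factor -/
lemma Del_right (d : ℕ) (h : d + 1 ≤ n) {F : Fn n} (hF : F ∈ L n d) :
    TensorProduct.map LinearMap.id (epsQ d h) (Del d F) = 0 := by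
  rw [Del_apply, map_sum]
  have h1 : ∀ w, TensorProduct.map LinearMap.id (epsQ d h)
      ((F w * sg w) • ((L n d).mkQ (dl w) ⊗ₜ[ℂ] (L n d).mkQ (dl w))) =
      ((L n d).mkQ (F w • dl w)) ⊗ₜ[ℂ] (1 : ℂ) := by
    intro w
    rw [map_smul, TensorProduct.map_tmul, epsQ_mk, eps_dl, LinearMap.id_apply, map_smul]
    calc (F w * sg w) • ((L n d).mkQ (dl w) ⊗ₜ[ℂ] sg w)
        = (F w * sg w) • ((L n d).mkQ (dl w) ⊗ₜ[ℂ] (sg w • (1 : ℂ))) := by
          rw [smul_eq_mul, mul_one]
      _ = (F w * sg w * sg w) • ((L n d).mkQ (dl w) ⊗ₜ[ℂ] (1 : ℂ)) := by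
          rw [TensorProduct.tmul_smul, smul_smul]
      _ = F w • ((L n d).mkQ (dl w) ⊗ₜ[ℂ] (1 : ℂ)) := by
          rw [mul_assoc, sg_sq, mul_one]
      _ = (F w • (L n d).mkQ (dl w)) ⊗ₜ[ℂ] (1 : ℂ) := TensorProduct.smul_tmul' _ _ _
  rw [sum_congr rfl fun w _ => h1 w, ← TensorProduct.sum_tmul, ← map_sum, sum_dl]
  have h2 : (L n d).mkQ F = 0 := by
    rw [Submodule.mkQ_apply, Submodule.Quotient.mk_eq_zero]
    exact hF
  rw [h2, TensorProduct.zero_tmul]

/-- an element contracted to zero on both sides comes from the graded piece -/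
lemma mem_range_of_contract {d : ℕ} (hd : d + 2 = n) {t : Q n d ⊗[ℂ] Q n d}
    (h1 : TensorProduct.map (epsQ d (by omega)) LinearMap.id t = 0)
    (h2 : TensorProduct.map LinearMap.id (epsQ d (by omega)) t = 0) :
    ∃ y, TensorProduct.map (tau n d) (tau n d) y = t := by
  obtain ⟨l, hl⟩ := (tau n d).exists_leftInverse_of_injective
    (LinearMap.ker_eq_bot.2 (tau_inj n d))
  set e : Q n d := (L n d).mkQ (dl 1) with he
  have hee : epsQ d (by omega) e = 1 := by
    rw [he, epsQ_mk, eps_dl]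
    unfold sg
    simp
  set c : Q n d →ₗ[ℂ] Q n d := (epsQ d (by omega)).smulRight e with hc
  have hker : ∀ q : Q n d, epsQ d (by omega) q = 0 → tau n d (l q) = q := by
    intro q hq
    obtain ⟨F, rfl⟩ := Submodule.Quotient.mk_surjective _ q
    have h3 : F ∈ L n (d + 1) := L_of_eps (by omega) hq
    obtain ⟨x, hx⟩ := mem_range_tau h3
    have hx' : tau n d x = Submodule.Quotient.mk F := hx
    rw [← hx']
    exact congrArg _ (LinearMap.congr_fun hl x)
  have hpi : tau n d ∘ₗ (l ∘ₗ (LinearMap.id - c)) = LinearMap.id - c := by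
    refine LinearMap.ext fun q => ?_
    rw [LinearMap.comp_apply, LinearMap.comp_apply]
    refine hker _ ?_
    rw [LinearMap.sub_apply, LinearMap.id_apply, map_sub, hc, LinearMap.smulRight_apply, map_smul,
      hee, smul_eq_mul, mul_one, sub_self]
  have hcl : TensorProduct.map c LinearMap.id t = 0 := by
    have h4 : TensorProduct.map c LinearMap.id t =
        TensorProduct.map (LinearMap.toSpanSingleton ℂ (Q n d) e) LinearMap.id
          (TensorProduct.map (epsQ d (by omega)) LinearMap.id t) := by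
      rw [← LinearMap.comp_apply, ← TensorProduct.map_comp]
      rfl
    rw [h4, h1, map_zero]
  have hcr : TensorProduct.map LinearMap.id c t = 0 := by
    have h4 : TensorProduct.map LinearMap.id c t =
        TensorProduct.map LinearMap.id (LinearMap.toSpanSingleton ℂ (Q n d) e)
          (TensorProduct.map LinearMap.id (epsQ d (by omega)) t) := by
      rw [← LinearMap.comp_apply, ← TensorProduct.map_comp]
      rfl
    rw [h4, h2, map_zero]
  have h5 : TensorProduct.map (LinearMap.id - c) LinearMap.id t = t := by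
    have h9 : TensorProduct.map (LinearMap.id - c) (LinearMap.id : Q n d →ₗ[ℂ] Q n d) +
        TensorProduct.map c LinearMap.id = LinearMap.id := by
      rw [← TensorProduct.map_add_left, sub_add_cancel, TensorProduct.map_id]
    have h10 := LinearMap.congr_fun h9 t
    rwa [LinearMap.add_apply, hcl, add_zero, LinearMap.id_apply] at h10
  have h6 : TensorProduct.map LinearMap.id (LinearMap.id - c) t = t := by
    have h9 : TensorProduct.map (LinearMap.id : Q n d →ₗ[ℂ] Q n d) (LinearMap.id - c) +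
        TensorProduct.map LinearMap.id c = LinearMap.id := by
      rw [← TensorProduct.map_add_right, sub_add_cancel, TensorProduct.map_id]
    have h10 := LinearMap.congr_fun h9 t
    rwa [LinearMap.add_apply, hcr, add_zero, LinearMap.id_apply] at h10
  have h7 : TensorProduct.map (LinearMap.id - c) (LinearMap.id - c) t = t := by
    have h8 : TensorProduct.map (LinearMap.id - c) (LinearMap.id - c) =
        TensorProduct.map (LinearMap.id - c) LinearMap.id ∘ₗ
          TensorProduct.map LinearMap.id (LinearMap.id - c) := by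
      rw [← TensorProduct.map_comp, LinearMap.comp_id, LinearMap.id_comp]
    rw [h8, LinearMap.comp_apply, h6, h5]
  refine ⟨TensorProduct.map (l ∘ₗ (LinearMap.id - c)) (l ∘ₗ (LinearMap.id - c)) t, ?_⟩
  rw [← LinearMap.comp_apply, ← TensorProduct.map_comp, hpi, h7]

/-- the twisted diagonal detects the products of two `2`-colourings -/
lemma Del_zero {d : ℕ} (hd : d + 2 = n) {F : Fn n} (hF : Del d F = 0)
    (p q : Fin n → Fin 2 × Fin 2) : Th p q F = 0 := by
  have hh : d + Fintype.card (Fin 2) ≤ n := by simpa using hd.le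
  have h1 := congrArg (TensorProduct.map (ThQ d hh (fun i => (p i).1) (fun i => (q i).1))
    (ThQ d hh (fun i => (p i).2) (fun i => (q i).2))) hF
  rw [Del_apply, map_sum, map_zero] at h1
  have h2 := congrArg (TensorProduct.lid ℂ ℂ) h1
  rw [map_sum, map_zero] at h2
  rw [← h2, Th_apply]
  refine sum_congr rfl fun w _ => ?_
  rw [map_smul, map_smul, TensorProduct.map_tmul, ThQ_mk, ThQ_mk, Th_dl, Th_dl,
    TensorProduct.lid_tmul, smul_eq_mul, smul_eq_mul]
  have h3 : (∀ i, q (w i) = p i) ↔ ((∀ i, (q (w i)).1 = (p i).1) ∧ ∀ i, (q (w i)).2 = (p i).2) := by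
    constructor
    · intro h
      exact ⟨fun i => by rw [h], fun i => by rw [h]⟩
    · rintro ⟨ha, hb⟩ i
      exact Prod.ext (ha i) (hb i)
  by_cases ha : ∀ i, (q (w i)).1 = (p i).1
  · by_cases hb : ∀ i, (q (w i)).2 = (p i).2
    · rw [if_pos (h3.2 ⟨ha, hb⟩), if_pos ha, if_pos hb, sg_sq, mul_one, mul_comm]
      rfl
    · rw [if_neg (fun hc => hb (h3.1 hc).2), if_neg hb, mul_zero, mul_zero, mul_zero]
  · rw [if_neg (fun hc => ha (h3.1 hc).1), if_neg ha, zero_mul, mul_zero, mul_zero]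

/-- the embedding of anything that embeds in the functions of low degree -/
theorem core {d : ℕ} (hd : d + 2 = n) {ρ : (d : ℕ) → Gp n → (M n d →ₗ[ℂ] M n d)} (hρ : IsAct ρ)
    {X : Type*} [AddCommGroup X] [Module ℂ X] (r : Gp n → X →ₗ[ℂ] X) (s : X →ₗ[ℂ] Fn n)
    (hsL : ∀ x, s x ∈ L n d)
    (hinj : ∀ x, (∀ p q : Fin n → Fin 2 × Fin 2, Th p q (s x) = 0) → x = 0)
    (heq : ∀ g x, s (r g x) = gF g (s x)) :
    ∃ φ : (M n (d + 1) ⊗[ℂ] X) →ₗ[ℂ] (M n d ⊗[ℂ] M n d), Injective φ ∧
      ∀ g : Gp n, φ ∘ₗ TensorProduct.map (ρ (d + 1) g) (r g) =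
        TensorProduct.map (ρ d g) (ρ d g) ∘ₗ φ := by
  classical
  obtain ⟨l, hl⟩ := (tau n d).exists_leftInverse_of_injective
    (LinearMap.ker_eq_bot.2 (tau_inj n d))
  have htt : TensorProduct.map l l ∘ₗ TensorProduct.map (tau n d) (tau n d) = LinearMap.id := by
    rw [← TensorProduct.map_comp, hl, TensorProduct.map_id]
  have htinj : Injective (TensorProduct.map (tau n d) (tau n d)) := by
    intro a b hab
    have h1 := LinearMap.congr_fun htt a
    have h2 := LinearMap.congr_fun htt b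
    rw [LinearMap.comp_apply, LinearMap.id_apply] at h1 h2
    rw [← h1, ← h2, hab]
  -- the contraction with the alternating sum
  set em : M n (d + 1) →ₗ[ℂ] ℂ := epsQ (d + 1) (by omega) ∘ₗ tau n (d + 1) with hem
  have hemi : Injective em := by
    rw [← LinearMap.ker_eq_bot, LinearMap.ker_eq_bot']
    intro x hx
    apply tau_inj n (d + 1)
    rw [map_zero]
    obtain ⟨F, hF⟩ := Submodule.Quotient.mk_surjective _ (tau n (d + 1) x)
    rw [hem, LinearMap.comp_apply, ← hF] at hx
    have h3 : F ∈ L n (d + 1) := L_of_eps (by omega) hx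
    rw [← hF, Submodule.Quotient.mk_eq_zero]
    exact h3
  have hema : ∀ g x, em (ρ (d + 1) g x) = sg g.1 * sg g.2 * em x := by
    intro g x
    rw [hem, LinearMap.comp_apply, LinearMap.comp_apply, tau_act hρ]
    obtain ⟨F, hF⟩ := Submodule.Quotient.mk_surjective _ (tau n (d + 1) x)
    rw [← hF]
    exact eps_gF g F
  set c : (M n (d + 1) ⊗[ℂ] X) →ₗ[ℂ] X :=
    (TensorProduct.lid ℂ X).toLinearMap ∘ₗ TensorProduct.map em LinearMap.id with hc
  have hci : Injective c := by
    rw [hc, LinearMap.coe_comp]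
    refine (TensorProduct.lid ℂ X).injective.comp ?_
    exact Module.Flat.rTensor_preserves_injective_linearMap em hemi
  have hca : ∀ g z, c (TensorProduct.map (ρ (d + 1) g) (r g) z) =
      (sg g.1 * sg g.2) • r g (c z) := by
    intro g z
    have h4 : c ∘ₗ TensorProduct.map (ρ (d + 1) g) (r g) = (sg g.1 * sg g.2) • (r g ∘ₗ c) := by
      refine TensorProduct.ext' fun x y => ?_
      rw [LinearMap.comp_apply, TensorProduct.map_tmul, LinearMap.smul_apply,
        LinearMap.comp_apply, hc, LinearMap.comp_apply, LinearMap.comp_apply,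
        TensorProduct.map_tmul, TensorProduct.map_tmul, LinearMap.id_apply, LinearMap.id_apply,
        LinearEquiv.coe_coe, TensorProduct.lid_tmul, TensorProduct.lid_tmul, hema, map_smul,
        smul_smul]
    exact LinearMap.congr_fun h4 z
  have hran : ∀ x, TensorProduct.map (tau n d) (tau n d) (TensorProduct.map l l (Del d (s x))) =
      Del d (s x) := by
    intro x
    obtain ⟨y, hy⟩ := mem_range_of_contract hd (Del_left d (by omega) (hsL x))
      (Del_right d (by omega) (hsL x))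
    rw [← hy]
    exact congrArg _ (LinearMap.congr_fun htt y)
  refine ⟨TensorProduct.map l l ∘ₗ Del d ∘ₗ s ∘ₗ c, ?_, ?_⟩
  · rw [← LinearMap.ker_eq_bot, LinearMap.ker_eq_bot']
    intro z hz
    rw [LinearMap.comp_apply, LinearMap.comp_apply, LinearMap.comp_apply] at hz
    have h5 := hran (c z)
    rw [hz, map_zero] at h5
    have h6 : c z = 0 := hinj _ fun p q => Del_zero hd h5.symm p q
    exact hci (by rw [h6, map_zero])
  · intro g
    refine LinearMap.ext fun z => ?_
    apply htinj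
    rw [LinearMap.comp_apply, LinearMap.comp_apply, LinearMap.comp_apply, LinearMap.comp_apply,
      hran, hca, map_smul, heq, map_smul, Del_gF, smul_smul]
    have h7 : sg g.1 * sg g.2 * (sg g.1 * sg g.2) = 1 := by
      have h3 := sg_sq g.1
      have h4 := sg_sq g.2
      linear_combination h3 * (sg g.2 * sg g.2) + h4
    have h8 : tau n d ∘ₗ ρ d g = gQ d g ∘ₗ tau n d :=
      LinearMap.ext fun x => tau_act hρ d g x
    have h9 : TensorProduct.map (tau n d) (tau n d) ∘ₗ TensorProduct.map (ρ d g) (ρ d g) =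
        TensorProduct.map (gQ d g) (gQ d g) ∘ₗ TensorProduct.map (tau n d) (tau n d) := by
      rw [← TensorProduct.map_comp, h8, TensorProduct.map_comp]
    have h10 : ∀ x : X, TensorProduct.map (tau n d) (tau n d)
        (TensorProduct.map (ρ d g) (ρ d g) (TensorProduct.map l l (Del d (s x)))) =
        TensorProduct.map (gQ d g) (gQ d g) (Del d (s x)) := by
      intro x
      have h11 := LinearMap.congr_fun h9 (TensorProduct.map l l (Del d (s x)))
      rwa [LinearMap.comp_apply, LinearMap.comp_apply, hran] at h11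
    rw [h7, one_smul]
    exact (h10 (c z)).symm

/-- a function orthogonal to the products of two `2`-colourings has degree less than `n - 4` -/
lemma L_of_Th4 {d : ℕ} (hd : d + 4 = n) {F : Fn n}
    (hF : ∀ p q : Fin n → Fin 2 × Fin 2, Th p q F = 0) : F ∈ L n d := by
  refine hard hd fun p q => ?_
  let e : Fin 4 ≃ Fin 2 × Fin 2 := (finProdFinEquiv (m := 2) (n := 2)).symm
  rw [← hF (fun i => e (p i)) (fun i => e (q i)), Th_apply, Th_apply]
  refine sum_congr rfl fun w _ => ?_
  congr 1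
  refine if_congr ?_ rfl rfl
  exact forall_congr' fun i => (e.injective.eq_iff).symm

/-- a function orthogonal to the products of two `2`-colourings has degree less than `n - 3` -/
lemma L_of_Th3 {d : ℕ} (hd : d + 3 = n) {F : Fn n}
    (hF : ∀ p q : Fin n → Fin 2 × Fin 2, Th p q F = 0) : F ∈ L n d := by
  refine hard hd fun p q => ?_
  let e : Fin 3 → Fin 2 × Fin 2 := fun i =>
    (finProdFinEquiv (m := 2) (n := 2)).symm (Fin.castSucc i : Fin 4)
  have he : Injective e := fun a b hab => Fin.castSucc_injective _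
    ((finProdFinEquiv (m := 2) (n := 2)).symm.injective hab)
  rw [← hF (fun i => e (p i)) (fun i => e (q i)), Th_apply, Th_apply]
  refine sum_congr rfl fun w _ => ?_
  congr 1
  refine if_congr ?_ rfl rfl
  exact forall_congr' fun i => (he.eq_iff).symm

/-- Q1 in degree `n - 2` -/
theorem top {m : ℕ} {ρ : (d : ℕ) → Gp (m + 3) → (M (m + 3) d →ₗ[ℂ] M (m + 3) d)}
    (hρ : IsAct ρ) :
    ∃ φ : (M (m + 3) (m + 2) ⊗[ℂ] M (m + 3) m) →ₗ[ℂ]
        (M (m + 3) (m + 1) ⊗[ℂ] M (m + 3) (m + 1)), Injective φ ∧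
      ∀ g, φ ∘ₗ TensorProduct.map (ρ (m + 2) g) (ρ m g) =
        TensorProduct.map (ρ (m + 1) g) (ρ (m + 1) g) ∘ₗ φ := by
  obtain ⟨s, hs1, hs2, hs3⟩ := exists_section hρ m
  exact core (d := m + 1) (by omega) hρ (ρ m) s hs1
    (fun x hx => hs2 x (L_of_Th3 (by omega) hx)) hs3

/-- the strong form -/
theorem topSum {m : ℕ} {ρ : (d : ℕ) → Gp (m + 4) → (M (m + 4) d →ₗ[ℂ] M (m + 4) d)}
    (hρ : IsAct ρ) :
    ∃ φ : (M (m + 4) (m + 3) ⊗[ℂ] (M (m + 4) (m + 1) × M (m + 4) m)) →ₗ[ℂ]
        (M (m + 4) (m + 2) ⊗[ℂ] M (m + 4) (m + 2)), Injective φ ∧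
      ∀ g, φ ∘ₗ TensorProduct.map (ρ (m + 3) g) ((ρ (m + 1) g).prodMap (ρ m g)) =
        TensorProduct.map (ρ (m + 2) g) (ρ (m + 2) g) ∘ₗ φ := by
  obtain ⟨s, hs1, hs2, hs3⟩ := exists_section hρ (m + 1)
  obtain ⟨t, ht1, ht2, ht3⟩ := exists_section hρ m
  refine core (d := m + 2) (by omega) hρ (fun g => (ρ (m + 1) g).prodMap (ρ m g))
    (LinearMap.coprod s t) ?_ ?_ ?_
  · rintro ⟨x, y⟩
    rw [LinearMap.coprod_apply]
    exact add_mem (hs1 x) (L_mono (by omega) (ht1 y))
  · rintro ⟨x, y⟩ hxy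
    have h1 := L_of_Th4 (d := m) (by omega) hxy
    rw [LinearMap.coprod_apply] at h1
    have hx : x = 0 := by
      refine hs2 x ?_
      have h2 : s x = (s x + t y) - t y := by abel
      rw [h2]
      exact sub_mem (L_mono (by omega) h1) (ht1 y)
    rw [hx, map_zero, zero_add] at h1
    rw [hx, ht2 y h1]
    rfl
  · rintro g ⟨x, y⟩
    rw [LinearMap.prodMap_apply, LinearMap.coprod_apply, LinearMap.coprod_apply, map_add, hs3, ht3]

end Pool.Agent.Helper4.PMT
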