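import Pool.Agent.Helper4.PMT.D

set_option autoImplicit false

/-! # Alternating colourings -/

namespace Pool.Agent.Helper4.PMT

open Finset MvPolynomial Function TensorProduct Pool.Agent.Helper30.PML

variable {n : ℕ}

/-- `x` is alternating in the positions of `T` -/
def Alt {κ : Type*} (T : Finset (Fin n)) (x : (Fin n → κ) → ℂ) : Prop :=
  ∀ i ∈ T, ∀ j ∈ T, i ≠ j → ∀ r : Fin n → κ, x (r ∘ Equiv.swap i j) = -x r

/-- the span of the functions on the `k`-colourings that are alternating in some `k` positions -/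
def U (n k : ℕ) : Submodule ℂ ((Fin n → Fin k) → ℂ) :=
  Submodule.span ℂ {x | ∃ T : Finset (Fin n), T.card = k ∧ Alt T x}

/-- pullback of a function on colourings to the permutations -/
def co {κ : Type*} (q : Fin n → κ) : ((Fin n → κ) → ℂ) →ₗ[ℂ] Fn n where
  toFun x w := x (q ∘ w)
  map_add' _ _ := rfl
  map_smul' _ _ := rfl

lemma co_apply {κ : Type*} (q : Fin n → κ) (x : (Fin n → κ) → ℂ) (w : Equiv.Perm (Fin n)) :
    co q x w = x (q ∘ w) := rfl

/-- the functions on the permutations that come from `U n k` -/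
def D (n k : ℕ) : Submodule ℂ (Fn n) :=
  ⨆ q : Fin n → Fin k, (U n k).map (co q)

lemma co_mem_D {k : ℕ} (q : Fin n → Fin k) {x : (Fin n → Fin k) → ℂ} (hx : x ∈ U n k) :
    co q x ∈ D n k :=
  Submodule.mem_iSup_of_mem q (Submodule.mem_map_of_mem hx)

/-- induction principle for `D` -/
lemma D_induction {k : ℕ} {P : Fn n → Prop}
    (h : ∀ (q : Fin n → Fin k) (T : Finset (Fin n)) (x : (Fin n → Fin k) → ℂ), T.card = k →
      Alt T x → P (co q x)) (h0 : P 0) (ha : ∀ f g, P f → P g → P (f + g))
    (hs : ∀ (c : ℂ) f, P f → P (c • f)) {f : Fn n} (hf : f ∈ D n k) : P f := by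
  refine Submodule.iSup_induction (fun q : Fin n → Fin k => (U n k).map (co q)) (motive := P) hf
    ?_ h0 ha
  rintro q _ ⟨x, hx, rfl⟩
  refine Submodule.span_induction (p := fun x _ => P (co q x)) ?_ ?_ ?_ ?_ hx
  · rintro x ⟨T, hT, hA⟩
    exact h q T x hT hA
  · rw [map_zero]
    exact h0
  · intro x y _ _ hx hy
    rw [map_add]
    exact ha _ _ hx hy
  · intro c x _ hx
    rw [map_smul]
    exact hs c _ hx

lemma Alt.star {κ : Type*} {T : Finset (Fin n)} {x : (Fin n → κ) → ℂ} (h : Alt T x) :
    Alt T (fun r => starRingEnd ℂ (x r)) := by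
  intro i hi j hj hij r
  simp only
  rw [h i hi j hj hij r, map_neg]

lemma U_star {k : ℕ} {x : (Fin n → Fin k) → ℂ} (hx : x ∈ U n k) :
    (fun r => starRingEnd ℂ (x r)) ∈ U n k := by
  refine Submodule.span_induction (p := fun x _ => (fun r => starRingEnd ℂ (x r)) ∈ U n k)
    ?_ ?_ ?_ ?_ hx
  · rintro x ⟨T, hT, hA⟩
    exact Submodule.subset_span ⟨T, hT, hA.star⟩
  · have : (fun r : Fin n → Fin k => starRingEnd ℂ ((0 : (Fin n → Fin k) → ℂ) r)) = 0 := by
      funext r
      simp
    rw [this]
    exact zero_mem _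
  · intro x y _ _ hx hy
    have : (fun r : Fin n → Fin k => starRingEnd ℂ ((x + y) r)) =
        (fun r => starRingEnd ℂ (x r)) + fun r => starRingEnd ℂ (y r) := by
      funext r
      simp
    rw [this]
    exact add_mem hx hy
  · intro c x _ hx
    have : (fun r : Fin n → Fin k => starRingEnd ℂ ((c • x) r)) =
        (starRingEnd ℂ c) • fun r => starRingEnd ℂ (x r) := by
      funext r
      simp
    rw [this]
    exact Submodule.smul_mem _ _ hx

lemma D_star {k : ℕ} {f : Fn n} (hf : f ∈ D n k) : (fun w => starRingEnd ℂ (f w)) ∈ D n k := by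
  refine D_induction (P := fun f : Fn n => (fun w => starRingEnd ℂ (f w)) ∈ D n k) ?_ ?_ ?_ ?_ hf
  · intro q T x hT hA
    have : (fun w => starRingEnd ℂ (co q x w)) = co q (fun r => starRingEnd ℂ (x r)) := rfl
    rw [this]
    exact co_mem_D q (Submodule.subset_span ⟨T, hT, hA.star⟩)
  · have : (fun w : Equiv.Perm (Fin n) => starRingEnd ℂ ((0 : Fn n) w)) = 0 := by
      funext r
      simp
    rw [this]
    exact zero_mem _
  · intro x y hx hy
    have : (fun w : Equiv.Perm (Fin n) => starRingEnd ℂ ((x + y) w)) =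
        (fun r => starRingEnd ℂ (x r)) + fun r => starRingEnd ℂ (y r) := by
      funext r
      simp
    rw [this]
    exact add_mem hx hy
  · intro c x hx
    have : (fun w : Equiv.Perm (Fin n) => starRingEnd ℂ ((c • x) w)) =
        (starRingEnd ℂ c) • fun r => starRingEnd ℂ (x r) := by
      funext r
      simp
    rw [this]
    exact Submodule.smul_mem _ _ hx

/-- sums of squares -/
lemma zero_of_sum {α : Type*} [Fintype α] {f : α → ℂ}
    (h : ∑ a, f a * starRingEnd ℂ (f a) = 0) : f = 0 := by
  have h1 : ∑ a, (Complex.normSq (f a)) = 0 := by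
    have h2 : ∀ a, f a * starRingEnd ℂ (f a) = ((Complex.normSq (f a) : ℝ) : ℂ) :=
      fun a => Complex.mul_conj (f a)
    rw [sum_congr rfl fun a _ => h2 a, ← Complex.ofReal_sum] at h
    exact_mod_cast h
  funext a
  have h3 := (sum_eq_zero_iff_of_nonneg (fun a _ => Complex.normSq_nonneg (f a))).1 h1 a
    (mem_univ a)
  exact Complex.normSq_eq_zero.1 h3

lemma D_gF {k : ℕ} (g : Gp n) {f : Fn n} (hf : f ∈ D n k) : gF g f ∈ D n k := by
  classical
  refine D_induction (P := fun f : Fn n => gF g f ∈ D n k) ?_ ?_ ?_ ?_ hf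
  · intro q T x hT hA
    have h1 : gF g (co q x) = co (q ∘ ⇑(g.2⁻¹)) (fun r => x (r ∘ g.1)) := by
      funext w
      rfl
    rw [h1]
    refine co_mem_D _ (Submodule.subset_span ⟨T.map g.1.toEmbedding, ?_, ?_⟩)
    · rw [card_map, hT]
    · intro i hi j hj hij r
      rw [mem_map] at hi hj
      obtain ⟨i, hi, rfl⟩ := hi
      obtain ⟨j, hj, rfl⟩ := hj
      simp only [Equiv.toEmbedding_apply] at hij ⊢
      have h2 : (r ∘ ⇑(Equiv.swap (g.1 i) (g.1 j))) ∘ ⇑g.1 = (r ∘ g.1) ∘ Equiv.swap i j := by
        funext l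
        simp only [Function.comp_apply]
        congr 1
        have h3 := Equiv.swap_apply_apply g.1 i j
        rw [h3]
        simp
      rw [h2]
      exact hA i hi j hj (fun h => hij (by rw [h])) _
  · rw [map_zero]
    exact zero_mem _
  · intro x y hx hy
    rw [map_add]
    exact add_mem hx hy
  · intro c x hx
    rw [map_smul]
    exact Submodule.smul_mem _ _ hx

/-- the pairing twisted by the sign -/
noncomputable def pr (F f : Fn n) : ℂ := ∑ w, F w * (sg w * f w)

lemma pr_co {κ : Type*} [Fintype κ] [DecidableEq κ] (F : Fn n) (q : Fin n → κ)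
    (x : (Fin n → κ) → ℂ) : pr F (co q x) = ∑ r : Fin n → κ, x r * Th r q F := by
  unfold pr
  have h1 : ∀ r : Fin n → κ, x r * Th r q F =
      ∑ w : Equiv.Perm (Fin n), if q ∘ w = r then F w * (sg w * x (q ∘ w)) else 0 := by
    intro r
    rw [Th_apply, mul_sum]
    refine sum_congr rfl fun w _ => ?_
    have h2 : (∀ i, q (w i) = r i) ↔ q ∘ w = r := by
      rw [funext_iff]
      rfl
    by_cases h : q ∘ w = r
    · rw [if_pos (h2.2 h), if_pos h, h]
      unfold sg
      ring
    · rw [if_neg (fun hc => h (h2.1 hc)), if_neg h, mul_zero, mul_zero]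
  rw [sum_congr rfl fun r _ => h1 r, sum_comm]
  refine sum_congr rfl fun w _ => ?_
  rw [sum_ite_eq, if_pos (mem_univ _)]
  rfl

lemma pr_add_left (F G f : Fn n) : pr (F + G) f = pr F f + pr G f := by
  unfold pr
  rw [← sum_add_distrib]
  refine sum_congr rfl fun w _ => ?_
  rw [Pi.add_apply]
  ring

lemma pr_smul_left (c : ℂ) (F f : Fn n) : pr (c • F) f = c * pr F f := by
  unfold pr
  rw [mul_sum]
  refine sum_congr rfl fun w _ => ?_
  rw [Pi.smul_apply, smul_eq_mul]
  ring

lemma pr_add_right (F f g : Fn n) : pr F (f + g) = pr F f + pr F g := by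
  unfold pr
  rw [← sum_add_distrib]
  refine sum_congr rfl fun w _ => ?_
  rw [Pi.add_apply]
  ring

lemma pr_smul_right (c : ℂ) (F f : Fn n) : pr F (c • f) = c * pr F f := by
  unfold pr
  rw [mul_sum]
  refine sum_congr rfl fun w _ => ?_
  rw [Pi.smul_apply, smul_eq_mul]
  ring

lemma pr_zero_right (F : Fn n) : pr F 0 = 0 := by
  unfold pr
  simp

lemma pr_zero_left (f : Fn n) : pr 0 f = 0 := by
  unfold pr
  simp

/-- functions of low degree are orthogonal to `D` -/
lemma pr_L_D {k d : ℕ} (h : d + k ≤ n) {F f : Fn n} (hF : F ∈ L n d) (hf : f ∈ D n k) :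
    pr F f = 0 := by
  refine D_induction (P := fun f : Fn n => pr F f = 0) ?_ ?_ ?_ ?_ hf
  · intro q T x hT hA
    rw [pr_co]
    refine sum_eq_zero fun r _ => ?_
    rw [orth (κ := Fin k) (by simpa using h) hF r q, mul_zero]
  · exact pr_zero_right F
  · intro x y hx hy
    rw [pr_add_right, hx, hy, add_zero]
  · intro c x hx
    rw [pr_smul_right, hx, mul_zero]

/-- the colouring sums of a function of degree at most `n - k` lie in `U` -/
lemma Th_mem_U {k d : ℕ} (h : d + k = n + 1) {F : Fn n} (hF : F ∈ L n d) (q : Fin n → Fin k) :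
    (fun r => Th r q F) ∈ U n k := by
  obtain ⟨r, hr, rfl⟩ := hF
  have h0 : (fun p => Th p q (ev n r)) =
      ∑ m ∈ r.support, fun p => Th p q (ev n (monomial m (coeff m r))) := by
    funext p
    rw [Finset.sum_apply]
    conv_lhs => rw [r.as_sum, map_sum, map_sum]
  rw [h0]
  refine sum_mem fun m hm => ?_
  have hmd : m.degree < d := by
    by_contra hcon
    exact (MvPolynomial.mem_support_iff.1 hm) (hr m (not_lt.1 hcon))
  set R : Finset (Fin n) := m.support.image Prod.fst with hR
  have hRc : R.card < d := by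
    refine lt_of_le_of_lt card_image_le (lt_of_le_of_lt ?_ hmd)
    have : m.support.card = ∑ x ∈ m.support, 1 := by simp
    rw [this]
    exact sum_le_sum fun x hx => Nat.one_le_iff_ne_zero.2 (Finsupp.mem_support_iff.1 hx)
  have hcc : k ≤ Rᶜ.card := by
    rw [card_compl, Fintype.card_fin]
    omega
  obtain ⟨T, hTR, hT⟩ := exists_subset_card_eq hcc
  refine Submodule.subset_span ⟨T, hT, ?_⟩
  intro i hi j hj hij p
  have hiR := mem_compl.1 (hTR hi)
  have hjR := mem_compl.1 (hTR hj)
  simp only
  rw [Th_apply, Th_apply, ← sum_neg_distrib]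
  refine Fintype.sum_equiv (Equiv.mulRight (Equiv.swap i j)) _ _ fun w => ?_
  rw [Equiv.coe_mulRight, sign_mul_swap w hij, neg_mul, neg_neg]
  congr 1
  have h1 : (∀ l, q ((w * Equiv.swap i j) l) = p l) ↔
      ∀ l, q (w l) = (p ∘ Equiv.swap i j) l := by
    constructor
    · intro hl l
      have := hl (Equiv.swap i j l)
      rwa [Equiv.Perm.mul_apply, Equiv.swap_apply_self] at this
    · intro hl l
      rw [Equiv.Perm.mul_apply, hl, Function.comp_apply, Equiv.swap_apply_self]
  have h2 : ev n (monomial m (coeff m r)) (w * Equiv.swap i j) =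
      ev n (monomial m (coeff m r)) w := by
    rw [ev_apply, ev_apply, eval_monomial, eval_monomial]
    congr 1
    refine Finset.prod_congr rfl fun x hx => ?_
    have hxR : x.1 ∈ R := mem_image_of_mem _ hx
    have h3 : (w * Equiv.swap i j) x.1 = w x.1 := by
      rw [Equiv.Perm.mul_apply, Equiv.swap_apply_of_ne_of_ne]
      · rintro rfl
        exact hiR hxR
      · rintro rfl
        exact hjR hxR
    simp only [evalPt, h3]
  rw [h2]
  exact (if_congr h1 rfl rfl).symm

/-- functions of degree at most `n - k` orthogonal to `D n k` have smaller degree -/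
theorem L_of_pr {k d : ℕ} (h : d + k = n) {F : Fn n} (hF : F ∈ L n (d + 1))
    (hD : ∀ f ∈ D n k, pr F f = 0) : F ∈ L n d := by
  refine hard h fun p q => ?_
  have h1 := Th_mem_U (k := k) (d := d + 1) (by omega) hF q
  have h2 := hD _ (co_mem_D q (U_star h1))
  rw [pr_co] at h2
  have h3 : (fun r => Th r q F) = 0 := by
    refine zero_of_sum ?_
    rw [← h2]
    exact sum_congr rfl fun r _ => mul_comm _ _
  exact congrFun h3 p

/-- the sign twist of `D n k` has degree at most `n - k` -/
theorem sg_D {k d : ℕ} (h : d + k = n + 1) (hk : 1 ≤ k) {f : Fn n} (hf : f ∈ D n k) :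
    (fun w => sg w * f w) ∈ L n d := by
  refine hard (k := k - 1) (by omega) fun p q => ?_
  rw [Th_apply]
  have h0 : ∀ w : Equiv.Perm (Fin n), ((Equiv.Perm.sign w : ℤ) : ℂ) *
      (if ∀ i, q (w i) = p i then sg w * f w else 0) =
      if ∀ i, q (w i) = p i then f w else 0 := by
    intro w
    have h1 := sg_sq w
    unfold sg at h1 ⊢
    split_ifs
    · linear_combination (f w) * h1
    · rw [mul_zero]
  rw [sum_congr rfl fun w _ => h0 w]
  refine D_induction (P := fun f : Fn n =>
    ∑ w : Equiv.Perm (Fin n), (if ∀ i, q (w i) = p i then f w else 0) = 0) ?_ ?_ ?_ ?_ hf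
  · intro q' T x hT hA
    obtain ⟨i, hi, j, hj, hij, hpij⟩ := exists_ne_map_eq_of_card_lt_of_maps_to
      (s := T) (t := (univ : Finset (Fin (k - 1)))) (by rw [card_univ, Fintype.card_fin]; omega)
      (f := p) (fun _ _ => by simp)
    have key : ∑ w : Equiv.Perm (Fin n), (if ∀ i, q (w i) = p i then co q' x w else 0) =
        -∑ w : Equiv.Perm (Fin n), (if ∀ i, q (w i) = p i then co q' x w else 0) := by
      rw [← sum_neg_distrib]
      refine Fintype.sum_equiv (Equiv.mulRight (Equiv.swap i j)) _ _ fun w => ?_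
      rw [Equiv.coe_mulRight]
      have hps : ∀ l, p (Equiv.swap i j l) = p l := by
        intro l
        rcases eq_or_ne l i with rfl | h1
        · rw [Equiv.swap_apply_left, hpij]
        rcases eq_or_ne l j with rfl | h2
        · rw [Equiv.swap_apply_right, hpij]
        · rw [Equiv.swap_apply_of_ne_of_ne h1 h2]
      have h1 : (∀ l, q ((w * Equiv.swap i j) l) = p l) ↔ ∀ l, q (w l) = p l := by
        constructor
        · intro hl l
          have := hl (Equiv.swap i j l)
          rwa [Equiv.Perm.mul_apply, Equiv.swap_apply_self, hps] at this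
        · intro hl l
          rw [Equiv.Perm.mul_apply, hl, hps]
      have h2 : co q' x (w * Equiv.swap i j) = -co q' x w := by
        rw [co_apply, co_apply, ← hA i hi j hj hij]
        rfl
      by_cases hc : ∀ l, q (w l) = p l
      · rw [if_pos hc, if_pos (h1.2 hc), h2, neg_neg]
      · rw [if_neg hc, if_neg (fun hh => hc (h1.1 hh)), neg_zero]
    have h4 : (2 : ℂ) * ∑ w : Equiv.Perm (Fin n),
        (if ∀ i, q (w i) = p i then co q' x w else 0) = 0 := by
      linear_combination key
    exact (mul_eq_zero.1 h4).resolve_left two_ne_zero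
  · simp
  · intro x y hx hy
    calc ∑ w : Equiv.Perm (Fin n), (if ∀ i, q (w i) = p i then (x + y) w else 0)
        = ∑ w : Equiv.Perm (Fin n), (if ∀ i, q (w i) = p i then x w else 0) +
          ∑ w : Equiv.Perm (Fin n), (if ∀ i, q (w i) = p i then y w else 0) := by
          rw [← sum_add_distrib]
          refine sum_congr rfl fun w _ => ?_
          split_ifs
          · rfl
          · rw [add_zero]
      _ = 0 := by rw [hx, hy, add_zero]
  · intro c x hx
    calc ∑ w : Equiv.Perm (Fin n), (if ∀ i, q (w i) = p i then (c • x) w else 0)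
        = c * ∑ w : Equiv.Perm (Fin n), (if ∀ i, q (w i) = p i then x w else 0) := by
          rw [mul_sum]
          refine sum_congr rfl fun w _ => ?_
          split_ifs
          · rfl
          · rw [mul_zero]
      _ = 0 := by rw [hx, mul_zero]

/-- projection to a self-conjugate subspace -/
theorem exists_proj (W : Submodule ℂ (Fn n))
    (hW : ∀ f ∈ W, (fun w => starRingEnd ℂ (f w)) ∈ W) (F : Fn n) :
    ∃ f₀ ∈ W, ∀ f ∈ W, ∑ w, (F w - f₀ w) * f w = 0 := by
  classical
  let B : LinearMap.BilinForm ℂ (Fn n) := LinearMap.mk₂ ℂ (fun f g => ∑ w, f w * g w)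
    (fun a b c => by
      rw [← sum_add_distrib]
      exact sum_congr rfl fun w _ => by rw [Pi.add_apply]; ring)
    (fun a b c => by
      rw [smul_eq_mul, mul_sum]
      exact sum_congr rfl fun w _ => by rw [Pi.smul_apply, smul_eq_mul]; ring)
    (fun a b c => by
      rw [← sum_add_distrib]
      exact sum_congr rfl fun w _ => by rw [Pi.add_apply]; ring)
    (fun a b c => by
      rw [smul_eq_mul, mul_sum]
      exact sum_congr rfl fun w _ => by rw [Pi.smul_apply, smul_eq_mul]; ring)
  have hB : ∀ f g, B f g = ∑ w, f w * g w := fun f g => rfl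
  -- the map from `W` to its dual
  let R : W →ₗ[ℂ] Module.Dual ℂ W := (B.domRestrict W).compr₂ LinearMap.id |>.compl₂ W.subtype
  have hR : ∀ f g : W, R f g = ∑ w, (f : Fn n) w * (g : Fn n) w := fun f g => rfl
  have hinj : Injective R := by
    rw [← LinearMap.ker_eq_bot, LinearMap.ker_eq_bot']
    intro f hf
    have h1 := LinearMap.congr_fun hf ⟨_, hW f.1 f.2⟩
    rw [hR, LinearMap.zero_apply] at h1
    exact Subtype.ext (zero_of_sum h1)
  have hsurj : Surjective R := by
    refine (LinearMap.injective_iff_surjective_of_finrank_eq_finrank ?_).1 hinj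
    rw [Subspace.dual_finrank_eq]
  obtain ⟨f₀, hf₀⟩ := hsurj ((B F).comp W.subtype)
  refine ⟨f₀, f₀.2, fun f hf => ?_⟩
  have h1 := LinearMap.congr_fun hf₀ ⟨f, hf⟩
  rw [hR] at h1
  have h2 : ∑ w, (f₀ : Fn n) w * f w = ∑ w, F w * f w := h1
  rw [← sub_eq_zero] at h2
  rw [← sum_sub_distrib] at h2
  rw [← neg_eq_zero, ← sum_neg_distrib, ← h2]
  exact sum_congr rfl fun w _ => by ring

end Pool.Agent.Helper4.PMT
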