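import Pool.Agent.Helper4.PMT.E

set_option autoImplicit false

/-! # The inequalities that contain the top degree -/

namespace Pool.Agent.Helper4.PMT

open Finset MvPolynomial Function TensorProduct Pool.Agent.Helper30.PML

variable {n : ℕ}

/-- expansion of a function of two variables with slices in a subspace -/
lemma slices {α β : Type*} [Fintype α] [DecidableEq α] (A : Submodule ℂ (α → ℂ))
    (z : α → β → ℂ) (h1 : ∀ b, (fun a => z a b) ∈ A) :
    ∃ u : α → α → ℂ, (∀ a, u a ∈ A) ∧ ∀ a b, z a b = ∑ c, u c a * z c b := by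
  obtain ⟨A', hA'⟩ := A.exists_isCompl
  set P : (α → ℂ) →ₗ[ℂ] (α → ℂ) := A.subtype ∘ₗ A.projectionOnto A' hA' with hP
  have hPA : ∀ f, P f ∈ A := fun f => (A.projectionOnto A' hA' f).2
  have hPid : ∀ f ∈ A, P f = f := by
    intro f hf
    have := Submodule.projectionOnto_apply_left hA' ⟨f, hf⟩
    rw [hP, LinearMap.comp_apply]
    change ((A.projectionOnto A' hA' ((⟨f, hf⟩ : A) : α → ℂ) : A) : α → ℂ) = f
    rw [this]
  refine ⟨fun c => P (Pi.single c 1), fun c => hPA _, fun a b => ?_⟩
  have h3 : P (fun a => z a b) = fun a => z a b := hPid _ (h1 b)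
  have h4 : (fun a => z a b) = ∑ c, z c b • (Pi.single c (1 : ℂ) : α → ℂ) := by
    funext a
    rw [Finset.sum_apply, sum_eq_single a]
    · rw [Pi.smul_apply, Pi.single_eq_same, smul_eq_mul, mul_one]
    · intro c _ hne
      rw [Pi.smul_apply, Pi.single_eq_of_ne hne.symm, smul_zero]
    · intro h
      exact absurd (mem_univ _) h
  have h5 : z a b = P (fun a => z a b) a := by rw [h3]
  rw [h5]
  conv_lhs => rw [h4, map_sum, Finset.sum_apply]
  refine sum_congr rfl fun c _ => ?_
  rw [map_smul, Pi.smul_apply, smul_eq_mul, mul_comm]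

/-- the embedding of `Fin b` in `Fin c × Fin e` with a full row and a full column -/
lemma exists_hook {b c e : ℕ} (hc : 1 ≤ c) (he : 1 ≤ e) (h1 : c + e ≤ b + 1) (h2 : b ≤ c * e) :
    ∃ ι : Fin b → Fin c × Fin e, Injective ι ∧ (∀ i, ∃ k, ι k = (i, ⟨0, he⟩)) ∧
      ∀ j, ∃ k, ι k = (⟨0, hc⟩, j) := by
  classical
  set H : Finset (Fin c × Fin e) := univ.filter fun x => x.1 = ⟨0, hc⟩ ∨ x.2 = ⟨0, he⟩ with hH
  have hHc : H.card ≤ b := by
    have h3 : H ⊆ (univ : Finset (Fin e)).image (fun j => ((⟨0, hc⟩ : Fin c), j)) ∪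
        ((univ : Finset (Fin c)).erase ⟨0, hc⟩).image (fun i => (i, (⟨0, he⟩ : Fin e))) := by
      rintro ⟨i, j⟩ hx
      rw [hH, mem_filter] at hx
      simp only [mem_univ, true_and] at hx
      rw [mem_union, mem_image, mem_image]
      by_cases hi : i = ⟨0, hc⟩
      · left
        exact ⟨j, mem_univ _, by rw [hi]⟩
      · right
        rcases hx with hx | hx
        · exact absurd hx hi
        · exact ⟨i, mem_erase.2 ⟨hi, mem_univ _⟩, by rw [hx]⟩
    refine (card_le_card h3).trans ((card_union_le _ _).trans ?_)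
    refine (Nat.add_le_add card_image_le card_image_le).trans ?_
    rw [card_erase_of_mem (mem_univ _), card_univ, card_univ, Fintype.card_fin, Fintype.card_fin]
    omega
  obtain ⟨S, hHS, hS⟩ := exists_superset_card_eq hHc (by
    rw [Fintype.card_prod, Fintype.card_fin, Fintype.card_fin]
    exact h2)
  set φ := (S.equivFinOfCardEq hS).symm with hφ
  refine ⟨fun k => (φ k : Fin c × Fin e), fun a b hab => φ.injective (Subtype.ext hab), ?_, ?_⟩
  · intro i
    have : ((i, ⟨0, he⟩) : Fin c × Fin e) ∈ S := hHS (by rw [hH, mem_filter]; simp)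
    exact ⟨φ.symm ⟨_, this⟩, by simp⟩
  · intro j
    have : ((⟨0, hc⟩, j) : Fin c × Fin e) ∈ S := hHS (by rw [hH, mem_filter]; simp)
    exact ⟨φ.symm ⟨_, this⟩, by simp⟩

/-- an alternating function vanishes on the colourings that are not injective on `T` -/
lemma Alt.inj {κ : Type*} {T : Finset (Fin n)} {x : (Fin n → κ) → ℂ} (h : Alt T x)
    {r : Fin n → κ} (hr : x r ≠ 0) : ∀ i ∈ T, ∀ j ∈ T, r i = r j → i = j := by
  intro i hi j hj hij
  by_contra hne
  have h1 := h i hi j hj hne r
  have h2 : r ∘ Equiv.swap i j = r := by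
    funext l
    rw [Function.comp_apply]
    rcases eq_or_ne l i with rfl | h1
    · rw [Equiv.swap_apply_left, hij]
    rcases eq_or_ne l j with rfl | h2
    · rw [Equiv.swap_apply_right, hij]
    · rw [Equiv.swap_apply_of_ne_of_ne h1 h2]
  rw [h2] at h1
  apply hr
  have h3 : (2 : ℂ) * x r = 0 := by linear_combination h1
  exact (mul_eq_zero.1 h3).resolve_left two_ne_zero

/-- `x` alternating in `T`, `|T| = b`, `κ` of `b` colours; the fibre of `r₂ = g ∘ r` over `j₀`. -/
lemma card_fibre {b c : ℕ} {κ : Type*} [DecidableEq κ] {T : Finset (Fin n)} (hT : T.card = b)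
    {r : Fin n → Fin b} (hr : ∀ i ∈ T, ∀ j ∈ T, r i = r j → i = j) (f : Fin b → Fin c)
    (g : Fin b → κ) (j₀ : κ) (hinj : ∀ k l, f k = f l → g k = g l → k = l)
    (hfull : ∀ i, ∃ k, f k = i ∧ g k = j₀) : (T.filter fun t => g (r t) = j₀).card = c := by
  classical
  have h1 : T.image r = univ := by
    refine eq_univ_of_card _ ?_
    rw [card_image_of_injOn (fun i hi j hj hij => hr i hi j hj hij), hT, Fintype.card_fin]
  have h2 : (T.filter fun t => g (r t) = j₀).card = (univ : Finset (Fin c)).card := by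
    refine card_bij (fun t _ => f (r t)) (fun t _ => mem_univ _) ?_ ?_
    · intro s hs t ht hst
      rw [mem_filter] at hs ht
      exact hr s hs.1 t ht.1 (hinj _ _ hst (by rw [hs.2, ht.2]))
    · intro i _
      obtain ⟨k, hk1, hk2⟩ := hfull i
      have hk : k ∈ T.image r := by rw [h1]; exact mem_univ _
      rw [mem_image] at hk
      obtain ⟨t, ht, htk⟩ := hk
      exact ⟨t, by rw [mem_filter]; exact ⟨ht, by rw [htk, hk2]⟩, by rw [htk, hk1]⟩
  rw [h2, card_univ, Fintype.card_fin]

/-- orthogonality to the products of `D n c` and `D n e` implies orthogonality to `D n b` -/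
theorem pr_prod {b c e : ℕ} (hc : 1 ≤ c) (he : 1 ≤ e) (h1 : c + e ≤ b + 1) (h2 : b ≤ c * e)
    {F : Fn n} (hF : ∀ u ∈ D n c, ∀ v ∈ D n e, pr F (fun w => u w * v w) = 0) :
    ∀ f ∈ D n b, pr F f = 0 := by
  classical
  intro f hf
  refine D_induction (P := fun f : Fn n => pr F f = 0) ?_ (pr_zero_right F) ?_ ?_ hf
  · intro q T x hT hA
    obtain ⟨ι, hι, hι1, hι2⟩ := exists_hook hc he h1 h2
    -- the function on pairs of colourings
    let z : (Fin n → Fin c) → (Fin n → Fin e) → ℂ := fun r₁ r₂ =>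
      if h : ∃ r : Fin n → Fin b, (∀ l, (ι (r l)).1 = r₁ l) ∧ ∀ l, (ι (r l)).2 = r₂ l then
        x h.choose else 0
    have hz : ∀ r : Fin n → Fin b, z (fun l => (ι (r l)).1) (fun l => (ι (r l)).2) = x r := by
      intro r
      have h : ∃ r' : Fin n → Fin b, (∀ l, (ι (r' l)).1 = (ι (r l)).1) ∧
          ∀ l, (ι (r' l)).2 = (ι (r l)).2 := ⟨r, fun _ => rfl, fun _ => rfl⟩
      change (if h : ∃ r' : Fin n → Fin b, (∀ l, (ι (r' l)).1 = (ι (r l)).1) ∧
          ∀ l, (ι (r' l)).2 = (ι (r l)).2 then x h.choose else 0) = x r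
      rw [dif_pos h]
      congr 1
      funext l
      exact hι (Prod.ext (h.choose_spec.1 l) (h.choose_spec.2 l))
    have hz0 : ∀ r₁ r₂, z r₁ r₂ ≠ 0 → ∃ r : Fin n → Fin b, (fun l => (ι (r l)).1) = r₁ ∧
        (fun l => (ι (r l)).2) = r₂ ∧ x r ≠ 0 := by
      intro r₁ r₂ hne
      have h : ∃ r : Fin n → Fin b, (∀ l, (ι (r l)).1 = r₁ l) ∧ ∀ l, (ι (r l)).2 = r₂ l := by
        by_contra hcon
        apply hne
        exact dif_neg hcon
      obtain ⟨r, hr1, hr2⟩ := h
      have e1 : (fun l => (ι (r l)).1) = r₁ := funext hr1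
      have e2 : (fun l => (ι (r l)).2) = r₂ := funext hr2
      refine ⟨r, e1, e2, ?_⟩
      rw [← hz r, e1, e2]
      exact hne
    have hzs : ∀ r₁ r₂, ∀ i ∈ T, ∀ j ∈ T, i ≠ j →
        z (r₁ ∘ Equiv.swap i j) (r₂ ∘ Equiv.swap i j) = -z r₁ r₂ := by
      intro r₁ r₂ i hi j hj hij
      by_cases h : ∃ r : Fin n → Fin b, (fun l => (ι (r l)).1) = r₁ ∧ (fun l => (ι (r l)).2) = r₂
      · obtain ⟨r, rfl, rfl⟩ := h
        have := hz (r ∘ Equiv.swap i j)
        rw [hA i hi j hj hij r] at this
        rw [hz r]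
        exact this
      · have h3 : z r₁ r₂ = 0 := by
          by_contra hcon
          obtain ⟨r, hr1, hr2, _⟩ := hz0 _ _ hcon
          exact h ⟨r, hr1, hr2⟩
        have h4 : z (r₁ ∘ Equiv.swap i j) (r₂ ∘ Equiv.swap i j) = 0 := by
          by_contra hcon
          obtain ⟨r, hr1, hr2, _⟩ := hz0 _ _ hcon
          refine h ⟨r ∘ Equiv.swap i j, ?_, ?_⟩
          · funext l
            have := congrFun hr1 (Equiv.swap i j l)
            simp only [Function.comp_apply, Equiv.swap_apply_self] at this ⊢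
            exact this
          · funext l
            have := congrFun hr2 (Equiv.swap i j l)
            simp only [Function.comp_apply, Equiv.swap_apply_self] at this ⊢
            exact this
        rw [h3, h4, neg_zero]
    have hsw : ∀ {κ : Type} (r : Fin n → κ) (i j : Fin n), r i = r j → r ∘ Equiv.swap i j = r := by
      intro κ r i j hij
      funext l
      rw [Function.comp_apply]
      rcases eq_or_ne l i with rfl | h1
      · rw [Equiv.swap_apply_left, hij]
      rcases eq_or_ne l j with rfl | h2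
      · rw [Equiv.swap_apply_right, hij]
      · rw [Equiv.swap_apply_of_ne_of_ne h1 h2]
    have hs1 : ∀ r₂, (fun r₁ => z r₁ r₂) ∈ U n c := by
      intro r₂
      by_cases h0 : (fun r₁ => z r₁ r₂) = 0
      · rw [h0]
        exact zero_mem _
      obtain ⟨r₁, hr₁⟩ : ∃ r₁, z r₁ r₂ ≠ 0 := by
        by_contra hcon
        push Not at hcon
        exact h0 (funext hcon)
      obtain ⟨r, hra, hrb, hx⟩ := hz0 _ _ hr₁
      refine Submodule.subset_span ⟨T.filter fun t => r₂ t = ⟨0, he⟩, ?_, ?_⟩
      · have := card_fibre hT (hA.inj hx) (fun k => (ι k).1) (fun k => (ι k).2) ⟨0, he⟩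
          (fun k l hk hl => hι (Prod.ext hk hl))
          (fun i => by
            obtain ⟨k, hk⟩ := hι1 i
            exact ⟨k, by rw [hk], by rw [hk]⟩)
        rw [← this]
        congr 1
        refine filter_congr fun t _ => ?_
        rw [← congrFun hrb t]
      · intro i hi j hj hij r₁'
        rw [mem_filter] at hi hj
        have h5 := hzs r₁' r₂ i hi.1 j hj.1 hij
        rw [hsw r₂ i j (by rw [hi.2, hj.2])] at h5
        exact h5
    have hs2 : ∀ r₁, z r₁ ∈ U n e := by
      intro r₁
      by_cases h0 : z r₁ = 0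
      · rw [h0]
        exact zero_mem _
      obtain ⟨r₂, hr₂⟩ : ∃ r₂, z r₁ r₂ ≠ 0 := by
        by_contra hcon
        push Not at hcon
        exact h0 (funext hcon)
      obtain ⟨r, hra, hrb, hx⟩ := hz0 _ _ hr₂
      refine Submodule.subset_span ⟨T.filter fun t => r₁ t = ⟨0, hc⟩, ?_, ?_⟩
      · have := card_fibre hT (hA.inj hx) (fun k => (ι k).2) (fun k => (ι k).1) ⟨0, hc⟩
          (fun k l hk hl => hι (Prod.ext hl hk))
          (fun i => by
            obtain ⟨k, hk⟩ := hι2 i
            exact ⟨k, by rw [hk], by rw [hk]⟩)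
        rw [← this]
        congr 1
        refine filter_congr fun t _ => ?_
        rw [← congrFun hra t]
      · intro i hi j hj hij r₂'
        rw [mem_filter] at hi hj
        have h5 := hzs r₁ r₂' i hi.1 j hj.1 hij
        rw [hsw r₁ i j (by rw [hi.2, hj.2])] at h5
        exact h5
    obtain ⟨u, hu, huz⟩ := slices (U n c) z hs1
    have h6 : co q x = ∑ r₁ : Fin n → Fin c, fun w =>
        co (fun l => (ι (q l)).1) (u r₁) w * co (fun l => (ι (q l)).2) (z r₁) w := by
      funext w
      rw [Finset.sum_apply, co_apply, ← hz, huz]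
      rfl
    have h7 : ∀ s : Finset (Fin n → Fin c), pr F (∑ r₁ ∈ s, fun w =>
        co (fun l => (ι (q l)).1) (u r₁) w * co (fun l => (ι (q l)).2) (z r₁) w) = 0 := by
      intro s
      induction s using Finset.induction_on with
      | empty => rw [sum_empty, pr_zero_right]
      | insert a s ha ih =>
        rw [sum_insert ha, pr_add_right, ih, add_zero]
        exact hF _ (co_mem_D _ (hu a)) _ (co_mem_D _ (hs2 a))
    rw [h6]
    exact h7 _
  · intro x y hx hy
    rw [pr_add_right, hx, hy, add_zero]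
  · intro a x hx
    rw [pr_smul_right, hx, mul_zero]

end Pool.Agent.Helper4.PMT
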