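import Pool.Agent.Helper4.PMT.G

set_option autoImplicit false

/-! # The graded pieces as spaces dual to `D` and the final embedding -/

namespace Pool.Agent.Helper4.PMT

open Finset MvPolynomial Function TensorProduct Pool.Agent.Helper30.PML

variable {n : ℕ}

/-- the functions orthogonal to `D n k` -/
noncomputable def N (n k : ℕ) : Submodule ℂ (Fn n) where
  carrier := {F | ∀ f ∈ D n k, pr F f = 0}
  zero_mem' := fun f _ => pr_zero_left f
  add_mem' := fun {F G} hF hG f hf => by rw [pr_add_left, hF f hf, hG f hf, add_zero]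
  smul_mem' := fun c F hF f hf => by rw [pr_smul_left, hF f hf, mul_zero]

lemma mem_N {k : ℕ} {F : Fn n} : F ∈ N n k ↔ ∀ f ∈ D n k, pr F f = 0 := Iff.rfl

lemma pr_gF (g : Gp n) (F f : Fn n) : pr (gF g F) f = (sg g.1 * sg g.2) * pr F (gF g⁻¹ f) := by
  unfold pr
  rw [mul_sum]
  refine Fintype.sum_equiv ((Equiv.mulRight g.1).trans (Equiv.mulLeft g.2⁻¹)) _ _ fun w => ?_
  have h1 : ((Equiv.mulRight g.1).trans (Equiv.mulLeft g.2⁻¹)) w = g.2⁻¹ * w * g.1 := by
    rw [Equiv.trans_apply, Equiv.coe_mulRight, Equiv.coe_mulLeft, mul_assoc]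
  rw [h1, gF_apply, gF_apply]
  have h2 : (g⁻¹).2⁻¹ * (g.2⁻¹ * w * g.1) * (g⁻¹).1 = w := by
    rw [Prod.fst_inv, Prod.snd_inv]
    group
  rw [h2, sg_mul, sg_mul, sg_inv]
  have h3 := sg_sq g.1
  have h4 := sg_sq g.2
  linear_combination (-(sg w * F (g.2⁻¹ * w * g.1) * f w)) * (h3 * (sg g.2 * sg g.2) + h4)

lemma gF_N {k : ℕ} (g : Gp n) {F : Fn n} (hF : F ∈ N n k) : gF g F ∈ N n k := by
  intro f hf
  rw [pr_gF, hF _ (D_gF g⁻¹ hf), mul_zero]

/-- the quotient by the functions orthogonal to `D n k` -/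
abbrev P (n k : ℕ) := Fn n ⧸ N n k

/-- the action on the quotient -/
noncomputable def gP (k : ℕ) (g : Gp n) : P n k →ₗ[ℂ] P n k :=
  (N n k).mapQ (N n k) (gF g) fun _ hF => gF_N g hF

lemma gP_mk (k : ℕ) (g : Gp n) (F : Fn n) :
    gP k g ((N n k).mkQ F) = (N n k).mkQ (gF g F) := rfl

lemma L_le_N {k d : ℕ} (h : d + k = n) : L n d ≤ N n k := fun _ hF _ hf =>
  pr_L_D h.le hF hf

/-- the graded piece of degree `n - k` maps to the quotient -/
noncomputable def sig {k d : ℕ} (h : d + k = n) : M n d →ₗ[ℂ] P n k :=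
  (L n d).factor (L_le_N h) ∘ₗ tau n d

lemma sig_eq {k d : ℕ} (h : d + k = n) {x : M n d} {F : Fn n} (hF : tau n d x = (L n d).mkQ F) :
    sig h x = (N n k).mkQ F := by
  unfold sig
  rw [LinearMap.comp_apply, hF]
  rfl

lemma exists_rep (d : ℕ) (x : M n d) : ∃ F ∈ L n (d + 1), tau n d x = (L n d).mkQ F := by
  obtain ⟨y, rfl⟩ := Submodule.Quotient.mk_surjective _ x
  exact ⟨ev n y, homog_L ((mem_homogeneousSubmodule _ _).1 y.2) (Nat.lt_succ_self d), tau_mk y⟩

lemma sig_bij {k d : ℕ} (h : d + k = n) (hk : 1 ≤ k) : Bijective (sig h : M n d →ₗ[ℂ] P n k) := by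
  constructor
  · rw [← LinearMap.ker_eq_bot, LinearMap.ker_eq_bot']
    intro x hx
    obtain ⟨F, hF, hxF⟩ := exists_rep d x
    have h1 : (N n k).mkQ F = 0 := by
      rw [← sig_eq h hxF]
      exact hx
    rw [Submodule.mkQ_apply, Submodule.Quotient.mk_eq_zero] at h1
    have h2 := L_of_pr h hF h1
    apply tau_inj n d
    rw [map_zero, hxF, Submodule.mkQ_apply, Submodule.Quotient.mk_eq_zero]
    exact h2
  · intro y
    obtain ⟨F, rfl⟩ := Submodule.Quotient.mk_surjective _ y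
    obtain ⟨f₀, hf₀, hf⟩ := exists_proj (D n k) (fun f hf => D_star hf) (fun w => sg w * F w)
    have h1 := sg_D (d := d + 1) (by omega) hk hf₀
    obtain ⟨x, hx⟩ := mem_range_tau h1
    refine ⟨x, ?_⟩
    rw [sig_eq h hx]
    symm
    change (N n k).mkQ F = _
    rw [← sub_eq_zero, ← map_sub, Submodule.mkQ_apply, Submodule.Quotient.mk_eq_zero]
    intro f hfD
    rw [← hf f hfD]
    unfold pr
    refine sum_congr rfl fun w _ => ?_
    rw [Pi.sub_apply]
    have h3 := sg_sq w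
    linear_combination (-(f₀ w * f w)) * h3

lemma sig_act {ρ : (d : ℕ) → Gp n → (M n d →ₗ[ℂ] M n d)} (hρ : IsAct ρ) {k d : ℕ}
    (h : d + k = n) (g : Gp n) (x : M n d) : sig h (ρ d g x) = gP k g (sig h x) := by
  obtain ⟨F, hF, hxF⟩ := exists_rep d x
  rw [sig_eq h hxF, gP_mk]
  refine sig_eq h ?_
  rw [tau_act hρ, hxF, gQ_mk]

/-- the twisted diagonal -/
noncomputable def Dia (c e : ℕ) : Fn n →ₗ[ℂ] (P n c ⊗[ℂ] P n e) where
  toFun F := ∑ w, (F w * sg w) • ((N n c).mkQ (dl w) ⊗ₜ[ℂ] (N n e).mkQ (dl w))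
  map_add' F G := by
    rw [← sum_add_distrib]
    refine sum_congr rfl fun w _ => ?_
    rw [Pi.add_apply, add_mul, add_smul]
  map_smul' c F := by
    rw [RingHom.id_apply, smul_sum]
    refine sum_congr rfl fun w _ => ?_
    rw [Pi.smul_apply, smul_eq_mul, smul_smul, mul_assoc]

lemma Dia_apply (c e : ℕ) (F : Fn n) : Dia c e F =
    ∑ w, (F w * sg w) • ((N n c).mkQ (dl w) ⊗ₜ[ℂ] (N n e).mkQ (dl w)) := rfl

lemma Dia_gF (c e : ℕ) (g : Gp n) (F : Fn n) :
    Dia c e (gF g F) = (sg g.1 * sg g.2) • TensorProduct.map (gP c g) (gP e g) (Dia c e F) := by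
  rw [Dia_apply, Dia_apply, map_sum, smul_sum]
  refine Fintype.sum_equiv ((Equiv.mulRight g.1).trans (Equiv.mulLeft g.2⁻¹)) _ _ fun w => ?_
  have h1 : ((Equiv.mulRight g.1).trans (Equiv.mulLeft g.2⁻¹)) w = g.2⁻¹ * w * g.1 := by
    rw [Equiv.trans_apply, Equiv.coe_mulRight, Equiv.coe_mulLeft, mul_assoc]
  rw [h1, gF_apply, map_smul, TensorProduct.map_tmul, gP_mk, gP_mk, gF_dl]
  have h2 : g.2 * (g.2⁻¹ * w * g.1) * g.1⁻¹ = w := by group
  rw [h2, smul_smul]
  congr 1
  rw [sg_mul, sg_mul, sg_inv]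
  have h3 := sg_sq g.1
  have h4 := sg_sq g.2
  linear_combination (-(sg w * F (g.2⁻¹ * w * g.1))) * (h3 * (sg g.2 * sg g.2) + h4)

lemma pr_dl (w : Equiv.Perm (Fin n)) (f : Fn n) : pr (dl w) f = sg w * f w := by
  unfold pr
  rw [sum_eq_single w]
  · rw [dl, if_pos rfl, one_mul]
  · intro w' _ hne
    rw [dl, if_neg hne, zero_mul]
  · intro h
    exact absurd (mem_univ _) h

/-- the functional given by an element of `D n k` -/
noncomputable def fn {k : ℕ} (f : Fn n) (hf : f ∈ D n k) : P n k →ₗ[ℂ] ℂ :=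
  (N n k).liftQ
    { toFun := fun F => pr F f
      map_add' := fun F G => pr_add_left F G f
      map_smul' := fun c F => pr_smul_left c F f } fun _ hF => hF f hf

lemma fn_mk {k : ℕ} (f : Fn n) (hf : f ∈ D n k) (F : Fn n) :
    fn f hf ((N n k).mkQ F) = pr F f := rfl

lemma Dia_zero {c e : ℕ} {F : Fn n} (hF : Dia c e F = 0) {u v : Fn n} (hu : u ∈ D n c)
    (hv : v ∈ D n e) : pr F (fun w => u w * v w) = 0 := by
  have h1 := congrArg (TensorProduct.map (fn u hu) (fn v hv)) hF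
  rw [Dia_apply, map_sum, map_zero] at h1
  have h2 := congrArg (TensorProduct.lid ℂ ℂ) h1
  rw [map_sum, map_zero] at h2
  rw [← h2]
  unfold pr
  refine sum_congr rfl fun w _ => ?_
  rw [map_smul, map_smul, TensorProduct.map_tmul, fn_mk, fn_mk, pr_dl, pr_dl,
    TensorProduct.lid_tmul, smul_eq_mul, smul_eq_mul]
  have h3 := sg_sq w
  linear_combination (-(F w * sg w * u w * v w)) * h3

/-- all inequalities of the strong form that contain the top degree -/
theorem topGen {ρ : (d : ℕ) → Gp n → (M n d →ₗ[ℂ] M n d)} (hρ : IsAct ρ) {b c e : ℕ}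
    (hc : 1 ≤ c) (he : 1 ≤ e) (h1 : c + e ≤ b + 1) (h2 : b ≤ c * e) {dt db dc de : ℕ}
    (ht : dt + 1 = n) (hb : db + b = n) (hdc : dc + c = n) (hde : de + e = n) :
    ∃ φ : (M n dt ⊗[ℂ] M n db) →ₗ[ℂ] (M n dc ⊗[ℂ] M n de), Injective φ ∧
      ∀ g : Gp n, φ ∘ₗ TensorProduct.map (ρ dt g) (ρ db g) =
        TensorProduct.map (ρ dc g) (ρ de g) ∘ₗ φ := by
  classical
  obtain ⟨s, hs1, hs2, hs3⟩ := exists_section hρ db
  set σc := LinearEquiv.ofBijective (sig hdc) (sig_bij hdc hc) with hσc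
  set σe := LinearEquiv.ofBijective (sig hde) (sig_bij hde he) with hσe
  set σ := TensorProduct.congr σc σe with hσ
  have hσa : ∀ g z, σ (TensorProduct.map (ρ dc g) (ρ de g) z) =
      TensorProduct.map (gP c g) (gP e g) (σ z) := by
    intro g z
    have h3 : TensorProduct.map (sig hdc) (sig hde) ∘ₗ TensorProduct.map (ρ dc g) (ρ de g) =
        TensorProduct.map (gP c g) (gP e g) ∘ₗ TensorProduct.map (sig hdc) (sig hde) := by
      rw [← TensorProduct.map_comp, ← TensorProduct.map_comp]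
      congr 1
      · exact LinearMap.ext fun x => sig_act hρ hdc g x
      · exact LinearMap.ext fun x => sig_act hρ hde g x
    exact LinearMap.congr_fun h3 z
  -- the contraction with the alternating sum
  set em : M n dt →ₗ[ℂ] ℂ := epsQ dt (by omega) ∘ₗ tau n dt with hem
  have hemi : Injective em := by
    rw [← LinearMap.ker_eq_bot, LinearMap.ker_eq_bot']
    intro x hx
    apply tau_inj n dt
    rw [map_zero]
    obtain ⟨F, hF⟩ := Submodule.Quotient.mk_surjective _ (tau n dt x)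
    rw [hem, LinearMap.comp_apply, ← hF] at hx
    have h3 : F ∈ L n dt := L_of_eps (by omega) hx
    rw [← hF, Submodule.Quotient.mk_eq_zero]
    exact h3
  have hema : ∀ g x, em (ρ dt g x) = sg g.1 * sg g.2 * em x := by
    intro g x
    rw [hem, LinearMap.comp_apply, LinearMap.comp_apply, tau_act hρ]
    obtain ⟨F, hF⟩ := Submodule.Quotient.mk_surjective _ (tau n dt x)
    rw [← hF]
    exact eps_gF g F
  set cn : (M n dt ⊗[ℂ] M n db) →ₗ[ℂ] M n db :=
    (TensorProduct.lid ℂ (M n db)).toLinearMap ∘ₗ TensorProduct.map em LinearMap.id with hcn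
  have hci : Injective cn := by
    rw [hcn, LinearMap.coe_comp]
    refine (TensorProduct.lid ℂ (M n db)).injective.comp ?_
    exact Module.Flat.rTensor_preserves_injective_linearMap em hemi
  have hca : ∀ g z, cn (TensorProduct.map (ρ dt g) (ρ db g) z) =
      (sg g.1 * sg g.2) • ρ db g (cn z) := by
    intro g z
    have h4 : cn ∘ₗ TensorProduct.map (ρ dt g) (ρ db g) =
        (sg g.1 * sg g.2) • (ρ db g ∘ₗ cn) := by
      refine TensorProduct.ext' fun x y => ?_
      rw [LinearMap.comp_apply, TensorProduct.map_tmul, LinearMap.smul_apply,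
        LinearMap.comp_apply, hcn, LinearMap.comp_apply, LinearMap.comp_apply,
        TensorProduct.map_tmul, TensorProduct.map_tmul, LinearMap.id_apply, LinearMap.id_apply,
        LinearEquiv.coe_coe, TensorProduct.lid_tmul, TensorProduct.lid_tmul, hema, map_smul,
        smul_smul]
    exact LinearMap.congr_fun h4 z
  refine ⟨σ.symm.toLinearMap ∘ₗ Dia c e ∘ₗ s ∘ₗ cn, ?_, ?_⟩
  · rw [← LinearMap.ker_eq_bot, LinearMap.ker_eq_bot']
    intro z hz
    have h5 : Dia c e (s (cn z)) = 0 := by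
      have h6 : σ.symm (Dia c e (s (cn z))) = 0 := hz
      exact (LinearEquiv.map_eq_zero_iff _).1 h6
    have h7 : cn z = 0 := hs2 _ (L_of_pr hb (hs1 _)
      (pr_prod hc he h1 h2 fun u hu v hv => Dia_zero h5 hu hv))
    exact hci (by rw [h7, map_zero])
  · intro g
    refine LinearMap.ext fun z => ?_
    apply σ.injective
    have h8 : ∀ y : M n dt ⊗[ℂ] M n db,
        σ ((σ.symm.toLinearMap ∘ₗ Dia c e ∘ₗ s ∘ₗ cn) y) = Dia c e (s (cn y)) := fun y =>
      σ.apply_symm_apply _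
    change σ ((σ.symm.toLinearMap ∘ₗ Dia c e ∘ₗ s ∘ₗ cn) (TensorProduct.map (ρ dt g) (ρ db g) z)) =
      σ (TensorProduct.map (ρ dc g) (ρ de g) ((σ.symm.toLinearMap ∘ₗ Dia c e ∘ₗ s ∘ₗ cn) z))
    rw [hσa, h8, h8, hca, map_smul, hs3, map_smul, Dia_gF, smul_smul]
    have h9 : sg g.1 * sg g.2 * (sg g.1 * sg g.2) = 1 := by
      have h3 := sg_sq g.1
      have h4 := sg_sq g.2
      linear_combination h3 * (sg g.2 * sg g.2) + h4
    rw [h9, one_smul]

end Pool.Agent.Helper4.PMT
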